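import Pool.Agent.H81.Nls.Niel

/-!
A generating tuple of a free group of the same cardinality as the rank is the image of the
standard basis under an automorphism.
-/

namespace Pool.Agent.H81.Nls

open Function FreeGroup

variable {α : Type*} [DecidableEq α]

/-- the automorphism inverting one letter -/
noncomputable def autInv (i : α) : FreeGroup α ≃* FreeGroup α :=
  MonoidHom.toMulEquiv (FreeGroup.lift (update of i (of i)⁻¹))
    (FreeGroup.lift (update of i (of i)⁻¹))
    (by
      apply FreeGroup.ext_hom
      intro a
      by_cases h : a = i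
      · subst h; simp
      · simp [h])
    (by
      apply FreeGroup.ext_hom
      intro a
      by_cases h : a = i
      · subst h; simp
      · simp [h])

lemma autInv_of (i a : α) : autInv i (of a) = update of i (of i)⁻¹ a := by
  simp [autInv]

/-- the automorphism multiplying one letter by another -/
noncomputable def autMul {i j : α} (hij : j ≠ i) : FreeGroup α ≃* FreeGroup α :=
  MonoidHom.toMulEquiv (FreeGroup.lift (update of i (of i * of j)))
    (FreeGroup.lift (update of i (of i * (of j)⁻¹)))
    (by
      apply FreeGroup.ext_hom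
      intro a
      by_cases h : a = i
      · subst h; simp [hij]
      · simp [h])
    (by
      apply FreeGroup.ext_hom
      intro a
      by_cases h : a = i
      · subst h; simp [hij]
      · simp [h])

lemma autMul_of {i j : α} (hij : j ≠ i) (a : α) :
    autMul hij (of a) = update of i (of i * of j) a := by
  simp [autMul]

lemma autMul_symm_of {i j : α} (hij : j ≠ i) (a : α) :
    (autMul hij).symm (of a) = update of i (of i * (of j)⁻¹) a := by
  simp [autMul]

lemma step_aut {A M : Set α} {w w' : α → FreeGroup α} (h : Step A M w w')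
    (hw : ∃ φ : FreeGroup α ≃* FreeGroup α, ∀ a, φ (of a) = w a) :
    ∃ φ : FreeGroup α ≃* FreeGroup α, (∀ a, φ (of a) = w' a) := by
  obtain ⟨φ, hφ⟩ := hw
  obtain ⟨i, hi, h | ⟨j, hj, hji, h | h⟩⟩ := h
  · refine ⟨(autInv i).trans φ, fun a => ?_⟩
    rw [MulEquiv.trans_apply, autInv_of, h]
    by_cases ha : a = i
    · subst ha; simp [hφ]
    · simp [ha, hφ]
  · refine ⟨(autMul hji).trans φ, fun a => ?_⟩
    rw [MulEquiv.trans_apply, autMul_of, h]
    by_cases ha : a = i
    · subst ha; simp [hφ]
    · simp [ha, hφ]
  · refine ⟨(autMul hji).symm.trans φ, fun a => ?_⟩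
    rw [MulEquiv.trans_apply, autMul_symm_of, h]
    by_cases ha : a = i
    · subst ha; simp [hφ]
    · simp [ha, hφ]

lemma rel_aut {A M : Set α} {w w' : α → FreeGroup α} (h : Rel A M w w')
    (hw : ∃ φ : FreeGroup α ≃* FreeGroup α, ∀ a, φ (of a) = w a) :
    ∃ φ : FreeGroup α ≃* FreeGroup α, (∀ a, φ (of a) = w' a) := by
  induction h with
  | refl => exact hw
  | tail _ h2 ih => exact step_aut h2 ih

theorem basis_aut [Fintype α] (u : α → FreeGroup α)
    (hu : Subgroup.closure (Set.range u) = ⊤) :
    ∃ φ : FreeGroup α ≃* FreeGroup α, ∀ a, φ (of a) = u a := by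
  obtain ⟨w', e, hrel, -, he, -, -⟩ := rel_nielsen (A := Set.univ) (M := Set.univ)
    (Set.subset_univ _) u (fun i _ hi => absurd trivial hi) (by rw [Set.image_univ, hu])
  have hinj : Injective e := by
    intro a b hab
    have := he a
    rw [hab, he b] at this
    exact (of_injective this).symm
  have hbij : Bijective e := Finite.injective_iff_bijective.1 hinj
  let σ : α ≃ α := Equiv.ofBijective e hbij
  apply rel_aut hrel.symm
  refine ⟨FreeGroup.freeGroupCongr σ.symm, fun a => ?_⟩
  have h1 := he (σ.symm a)
  have h2 : e (σ.symm a) = a := σ.apply_symm_apply a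
  rw [h2] at h1
  rw [h1]
  simp

end Pool.Agent.H81.Nls
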