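import Pool.Agent.H81.Nls.Prod
import Pool.Agent.H81.Nls.Aut

/-!
Generating tuples of a product of two free groups: the main theorem.
-/

namespace Pool.Agent.H81.Nls

open Function FreeGroup

/-- One elementary Nielsen move: a permutation of the entries, the inversion of an entry, or the
multiplication of an entry on the right by another entry. -/
def Move {ι G : Type*} [DecidableEq ι] [Group G] (a b : ι → G) : Prop :=
  (∃ σ : Equiv.Perm ι, b = a ∘ σ) ∨ (∃ i : ι, b = Function.update a i (a i)⁻¹) ∨
    (∃ i j : ι, i ≠ j ∧ b = Function.update a i (a i * a j))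

/-- Nielsen equivalence: a finite sequence of elementary Nielsen moves leads from `a` to `b`. -/
def Nielsen {ι G : Type*} [DecidableEq ι] [Group G] (a b : ι → G) : Prop :=
  Relation.ReflTransGen Move a b

/-- The standard tuple of `F(α) × F(γ)`: the entry at the place `E (inl i)` is `(x_i, 1)`, the
entry at the place `E (inr j)` is `(1, y_j)`, all other entries are trivial. -/
noncomputable def stdTuple {ι α γ : Type*} (E : α ⊕ γ ↪ ι) :
    ι → FreeGroup α × FreeGroup γ :=
  Function.extend E (Sum.elim (fun i => (FreeGroup.of i, 1)) (fun j => (1, FreeGroup.of j))) 1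

section moves

variable {ι : Type*} [DecidableEq ι] {G H : Type*} [Group G] [Group H]

lemma step_nielsen {A M : Set ι} {g g' : ι → G} (h : Step A M g g') : Nielsen g g' := by
  obtain ⟨i, hi, h | ⟨j, hj, hji, h | h⟩⟩ := h
  · exact Relation.ReflTransGen.single (Or.inr (Or.inl ⟨i, h⟩))
  · exact Relation.ReflTransGen.single (Or.inr (Or.inr ⟨i, j, hji.symm, h⟩))
  · have s1 : Move g (update g j (g j)⁻¹) := Or.inr (Or.inl ⟨j, rfl⟩)
    have s2 : Move (update g j (g j)⁻¹) (update (update g j (g j)⁻¹) i (g i * (g j)⁻¹)) := by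
      refine Or.inr (Or.inr ⟨i, j, hji.symm, ?_⟩)
      rw [update_of_ne hji.symm, update_self]
    have s3 : Move (update (update g j (g j)⁻¹) i (g i * (g j)⁻¹)) g' := by
      refine Or.inr (Or.inl ⟨j, ?_⟩)
      rw [h]
      funext k
      by_cases hk : k = j
      · subst hk
        rw [update_self, update_of_ne hji, update_of_ne hji, update_self, inv_inv]
      · by_cases hk2 : k = i
        · subst hk2
          rw [update_self, update_of_ne hk, update_self]
        · rw [update_of_ne hk2, update_of_ne hk, update_of_ne hk2, update_of_ne hk]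
    exact ((Relation.ReflTransGen.single s1).tail s2).tail s3

lemma rel_nielsen_move {A M : Set ι} {g g' : ι → G} (h : Rel A M g g') : Nielsen g g' := by
  induction h with
  | refl => exact Relation.ReflTransGen.refl
  | tail _ h2 ih => exact Relation.ReflTransGen.trans ih (step_nielsen h2)

open Classical in
lemma Rel.transfer {A : Set ι} {h h' : ι → H} (f : H →* G) (g : ι → G)
    (hg : ∀ i ∈ A, g i = f (h i)) (hr : Rel A A h h') :
    Rel A A g (fun i => if i ∈ A then f (h' i) else g i) := by
  induction hr with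
  | refl =>
    have : (fun i => if i ∈ A then f (h i) else g i) = g := by
      funext i
      by_cases hi : i ∈ A
      · rw [if_pos hi, hg i hi]
      · rw [if_neg hi]
    rw [this]
    exact Rel.refl _
  | @tail h1 h2 _ hs ih =>
    refine ih.trans (Step.rel ?_)
    have hupd : ∀ i ∈ A, ∀ z : H, (fun k => if k ∈ A then f (update h1 i z k) else g k) =
        update (fun k => if k ∈ A then f (h1 k) else g k) i (f z) := by
      intro i hi z
      funext k
      by_cases hk : k = i
      · subst hk; simp [hi]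
      · simp [hk]
    obtain ⟨i, hi, hh | ⟨j, hj, hji, hh | hh⟩⟩ := hs
    · refine ⟨i, hi, Or.inl ?_⟩
      rw [hh, hupd i hi, _root_.map_inv]
      simp only [if_pos hi]
    · refine ⟨i, hi, Or.inr ⟨j, hj, hji, Or.inl ?_⟩⟩
      rw [hh, hupd i hi, _root_.map_mul]
      simp only [if_pos hi, if_pos hj]
    · refine ⟨i, hi, Or.inr ⟨j, hj, hji, Or.inr ?_⟩⟩
      rw [hh, hupd i hi, _root_.map_mul, _root_.map_inv]
      simp only [if_pos hi, if_pos hj]

end moves

section main

variable {ι : Type*} [Fintype ι] [DecidableEq ι] {α γ : Type*} [Fintype α] [DecidableEq α]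
  [Fintype γ] [DecidableEq γ]

/-- the tuple is standard up to the order of its entries -/
def IsStd (g : ι → FreeGroup α × FreeGroup γ) (E1 : α → ι) (E2 : γ → ι) : Prop :=
  (∀ a, g (E1 a) = (of a, 1)) ∧ (∀ c, g (E2 c) = (1, of c)) ∧
    ∀ i, (∀ a, i ≠ E1 a) → (∀ c, i ≠ E2 c) → g i = 1

theorem main_basis [Nonempty α] (g : ι → FreeGroup α × FreeGroup γ)
    (u : α → FreeGroup α) (hu : Subgroup.closure (Set.range u) = ⊤) (I : Finset α)
    (D : Finset ι) (hD : Subgroup.closure (g '' {i | i ∉ D}) = ⊤)
    (hI : ∀ a ∈ I, ∃ i, i ∉ D ∧ g i = (u a, 1))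
    (hcard : Fintype.card α ≤ I.card + D.card + 1) :
    ∃ (g' : ι → FreeGroup α × FreeGroup γ) (E1 : α → ι) (E2 : γ → ι),
      Rel Set.univ Set.univ g g' ∧ IsStd g' E1 E2 := by
  classical
  -- choose the exceptional letter
  obtain ⟨a0, ha0⟩ : ∃ a0 : α, ((Finset.univ \ I).erase a0).card ≤ D.card := by
    have hc : (Finset.univ \ I).card = Fintype.card α - I.card := by
      rw [Finset.card_univ_diff]
    by_cases h : ∃ a, a ∉ I
    · obtain ⟨a, ha⟩ := h
      refine ⟨a, ?_⟩
      rw [Finset.card_erase_of_mem (by simp [ha])]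
      omega
    · push Not at h
      refine ⟨Classical.arbitrary α, ?_⟩
      have : (Finset.univ \ I) = ∅ := by
        ext x
        simp [h x]
      rw [this]
      simp
  set J := (Finset.univ \ I).erase a0 with hJ
  have hJD : Fintype.card {x // x ∈ J} ≤ Fintype.card {x // x ∈ D} := by
    simpa using ha0
  obtain ⟨f⟩ := Function.Embedding.nonempty_of_card_le hJD
  -- fill the superfluous entries
  let s : Finset ι := Finset.univ.image (fun a : {x // x ∈ J} => (f a : ι))
  have hsD : ∀ i ∈ s, i ∈ D := by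
    intro i hi
    obtain ⟨a, -, rfl⟩ := Finset.mem_image.1 hi
    exact (f a).2
  let F : ι → FreeGroup α × FreeGroup γ := fun i =>
    if h : ∃ a : {x // x ∈ J}, (f a : ι) = i then (u (Classical.choose h).1, 1) else 1
  have hF : ∀ a : {x // x ∈ J}, F (f a) = (u a, 1) := by
    intro a
    have h : ∃ b : {x // x ∈ J}, (f b : ι) = f a := ⟨a, rfl⟩
    have h2 : Classical.choose h = a := f.injective (Subtype.ext (Classical.choose_spec h))
    show (if h : ∃ b : {x // x ∈ J}, (f b : ι) = f a then
      ((u (Classical.choose h).1, 1) : FreeGroup α × FreeGroup γ) else 1) = (u a, 1)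
    rw [dif_pos h, h2]
  have hrel1 := rel_finset (A := Set.univ) (M := Set.univ) g F s (by
    intro i hi g' hoff _
    have h1 : g' '' {i | i ∉ D} = g '' {i | i ∉ D} := by
      apply Set.image_congr
      intro j hj
      exact hoff j (fun h => hj (hsD j h))
    have h2 : (g' i)⁻¹ * F i ∈ Subgroup.closure (g' '' (Set.univ \ {i})) := by
      have h3 : Subgroup.closure (g' '' {i | i ∉ D}) ≤
          Subgroup.closure (g' '' (Set.univ \ {i})) := by
        apply Subgroup.closure_mono
        apply Set.image_mono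
        intro j hj
        refine ⟨trivial, fun h => hj ?_⟩
        rw [Set.mem_singleton_iff.1 h]
        exact hsD i hi
      rw [h1, hD] at h3
      exact h3 trivial
    have h4 := rel_absorb (A := Set.univ) (M := Set.univ) (g := g') (i := i) trivial h2
    rwa [mul_inv_cancel_left] at h4)
  set g1 : ι → FreeGroup α × FreeGroup γ := fun i => if i ∈ s then F i else g i with hg1
  have hgen : Subgroup.closure (Set.range g) = ⊤ := by
    rw [eq_top_iff, ← hD]
    exact Subgroup.closure_mono (Set.image_subset_range _ _)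
  have hgen1 : Subgroup.closure (Set.range g1) = ⊤ := by
    have := hrel1.closure_eq (Set.subset_univ _)
    rw [Set.image_univ, Set.image_univ] at this
    rw [this, hgen]
  have hall : ∀ a, a ≠ a0 → ∃ i, g1 i = (u a, 1) := by
    intro a ha
    by_cases haI : a ∈ I
    · obtain ⟨i, hi, hgi⟩ := hI a haI
      refine ⟨i, ?_⟩
      have : i ∉ s := fun h => hi (hsD i h)
      rw [hg1]
      simp only [if_neg this]
      exact hgi
    · have haJ : a ∈ J := by
        rw [hJ, Finset.mem_erase]
        exact ⟨ha, by simp [haI]⟩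
      refine ⟨f ⟨a, haJ⟩, ?_⟩
      have : (f ⟨a, haJ⟩ : ι) ∈ s := Finset.mem_image.2 ⟨⟨a, haJ⟩, Finset.mem_univ _, rfl⟩
      rw [hg1]
      simp only [if_pos this]
      exact hF ⟨a, haJ⟩
  -- go to the standard basis
  obtain ⟨φ, hφ⟩ := basis_aut u hu
  let Ψ : FreeGroup α × FreeGroup γ ≃* FreeGroup α × FreeGroup γ :=
    MulEquiv.prodCongr φ.symm (MulEquiv.refl _)
  have hΨ : ∀ x, Ψ x = (φ.symm x.1, x.2) := fun x => rfl
  have hΨs : ∀ x, Ψ.symm x = (φ x.1, x.2) := fun x => rfl
  obtain ⟨g2, E1, E2, hrel2, hE1, hE2, hE3⟩ := prod_std a0 (fun i => Ψ (g1 i)) (by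
      have : Set.range (fun i => Ψ (g1 i)) = Ψ.toMonoidHom '' Set.range g1 := by
        rw [← Set.range_comp]; rfl
      rw [this, ← MonoidHom.map_closure, hgen1]
      exact Subgroup.map_top_of_surjective _ Ψ.surjective) (by
      intro a ha
      obtain ⟨i, hi⟩ := hall a ha
      refine ⟨i, ?_⟩
      rw [hi, hΨ]
      simp [← hφ])
  have hrel3 := hrel2.map Ψ.symm.toMonoidHom
  set g3 : ι → FreeGroup α × FreeGroup γ := fun i => Ψ.symm (g2 i) with hg3
  have hrel3' : Rel Set.univ Set.univ g1 g3 := by
    have e1 : (fun i => Ψ.symm.toMonoidHom (Ψ (g1 i))) = g1 := by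
      funext i
      exact Ψ.symm_apply_apply (g1 i)
    rw [e1] at hrel3
    exact hrel3
  have hg31 : ∀ a, g3 (E1 a) = (u a, 1) := by
    intro a
    rw [hg3]
    simp only
    rw [hE1, hΨs, hφ]
  have hg32 : ∀ c, g3 (E2 c) = (1, of c) := by
    intro c
    rw [hg3]
    simp only
    rw [hE2, hΨs, _root_.map_one]
  have hg33 : ∀ i, (∀ a, i ≠ E1 a) → (∀ c, i ≠ E2 c) → g3 i = 1 := by
    intro i h1 h2
    rw [hg3]
    simp only
    rw [hE3 i h1 h2, _root_.map_one]
  -- Nielsen's theorem for the basis
  let A : Set ι := Set.range E1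
  obtain ⟨w', e, hrel4, heA, he, hother, -⟩ := rel_nielsen (A := A) (M := A)
    (Set.Subset.refl _) (fun i => (g3 i).1) (fun i hi hi' => absurd hi hi') (by
      have : (fun i => (g3 i).1) '' A = Set.range u := by
        rw [← Set.range_comp]
        congr 1
        funext a
        simp only [comp_apply, hg31]
      rw [this, hu])
  obtain ⟨g4, hg4, hg4w⟩ := Rel.lift (g := g3)
    (MonoidHom.fst (FreeGroup α) (FreeGroup γ)) hrel4
  have hg4w' : ∀ i, (g4 i).1 = w' i := fun i => congrFun hg4w i
  have hsnd : ∀ i ∈ A, (g4 i).2 = 1 := by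
    have h1 : Subgroup.closure (g4 '' A) ≤
        (⊥ : Subgroup (FreeGroup γ)).comap (MonoidHom.snd (FreeGroup α) (FreeGroup γ)) := by
      rw [hg4.closure_eq (Set.Subset.refl _), Subgroup.closure_le]
      rintro _ ⟨i, ⟨a, rfl⟩, rfl⟩
      show (g3 (E1 a)).2 ∈ (⊥ : Subgroup (FreeGroup γ))
      rw [hg31]
      exact one_mem _
    intro i hi
    have := h1 (Subgroup.subset_closure ⟨i, hi, rfl⟩)
    exact Subgroup.mem_bot.1 this
  have hE2A : ∀ c, E2 c ∉ A := by
    rintro c ⟨a, ha⟩
    have h1 := hg31 a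
    rw [ha, hg32] at h1
    have h2 := congrArg Prod.snd h1
    exact of_ne_one c h2
  refine ⟨g4, e, E2, ?_, ?_, ?_, ?_⟩
  · exact hrel1.trans (hrel3'.trans (hg4.mono (Set.subset_univ _) (Set.subset_univ _)))
  · intro a
    apply Prod.ext
    · rw [hg4w', he]
    · exact hsnd _ (heA a)
  · intro c
    rw [hg4.off (hE2A c), hg32]
  · intro i h1 h2
    by_cases hi : i ∈ A
    · apply Prod.ext
      · rw [hg4w', hother i hi h1]; rfl
      · exact hsnd i hi
    · rw [hg4.off hi]
      apply hg33 i _ h2
      intro a ha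
      exact hi ⟨a, ha.symm⟩

theorem main_cyclic [Nonempty α] (g : ι → FreeGroup α × FreeGroup γ)
    (u : α → FreeGroup α) (hu : Subgroup.closure (Set.range u) = ⊤) (I : Finset α)
    (D : Finset ι) (c : FreeGroup γ) (m : α → ℤ)
    (hD : Subgroup.closure (g '' {i | i ∉ D}) = ⊤)
    (hI : ∀ a ∈ I, ∃ i, i ∉ D ∧ g i = (u a, c ^ m a))
    (hcard : Fintype.card α ≤ I.card + D.card) :
    ∃ (g' : ι → FreeGroup α × FreeGroup γ) (E1 : α → ι) (E2 : γ → ι),
      Rel Set.univ Set.univ g g' ∧ IsStd g' E1 E2 := by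
  classical
  haveI : Nonempty ι := by
    by_contra hne
    rw [not_nonempty_iff] at hne
    have h1 : g '' {i | i ∉ D} = ∅ := by
      rw [Set.image_eq_empty]
      ext i
      exact hne.elim i
    rw [h1, Subgroup.closure_empty] at hD
    have h2 : ((of (Classical.arbitrary α), 1) : FreeGroup α × FreeGroup γ) ∈
        (⊤ : Subgroup (FreeGroup α × FreeGroup γ)) := trivial
    rw [← hD, Subgroup.mem_bot] at h2
    exact of_ne_one _ (congrArg Prod.fst h2)
  choose! k hkD hk using hI
  have hkinj : ∀ a ∈ I, ∀ b ∈ I, k a = k b → a = b := by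
    intro a ha b hb hab
    obtain ⟨φ, hφ⟩ := basis_aut u hu
    have h1 := hk a ha
    rw [hab, hk b hb] at h1
    have h2 := congrArg Prod.fst h1
    simp only at h2
    rw [← hφ, ← hφ] at h2
    exact (of_injective (φ.injective h2)).symm
  let A : Set ι := {i | ∃ a ∈ I, i = k a}
  have hAD : A ⊆ {i | i ∉ D} := by
    rintro i ⟨a, ha, rfl⟩
    exact hkD a ha
  -- the tuple over the integers
  let h : ι → FreeGroup α × Multiplicative ℤ := fun i =>
    if hi : ∃ a ∈ I, i = k a then
      (u (Classical.choose hi), Multiplicative.ofAdd (m (Classical.choose hi))) else 1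
  have hh : ∀ a ∈ I, h (k a) = (u a, Multiplicative.ofAdd (m a)) := by
    intro a ha
    have hi : ∃ b ∈ I, k a = k b := ⟨a, ha, rfl⟩
    have h2 : Classical.choose hi = a :=
      (hkinj a ha _ (Classical.choose_spec hi).1 (Classical.choose_spec hi).2).symm
    show (if hi : ∃ b ∈ I, k a = k b then
      ((u (Classical.choose hi), Multiplicative.ofAdd (m (Classical.choose hi))) :
        FreeGroup α × Multiplicative ℤ) else 1) = _
    rw [dif_pos hi, h2]
  let f : FreeGroup α × Multiplicative ℤ →* FreeGroup α × FreeGroup γ :=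
    MonoidHom.prodMap (MonoidHom.id _) (zpowersHom (FreeGroup γ) c)
  have hf : ∀ x, f x = (x.1, c ^ (Multiplicative.toAdd x.2)) := fun x => rfl
  obtain ⟨h', hrel, hmin⟩ := euclid A (MonoidHom.snd (FreeGroup α) (Multiplicative ℤ)) h
  have htr := Rel.transfer f g (by
    rintro i ⟨a, ha, rfl⟩
    rw [hk a ha, hh a ha, hf]
    rfl) hrel
  set g' : ι → FreeGroup α × FreeGroup γ := fun i => if i ∈ A then f (h' i) else g i with hg'
  have htr' : Rel A A g g' := by
    rw [hg']
    convert htr
  let u' : α → FreeGroup α := fun a => if a ∈ I then (h' (k a)).1 else u a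
  have hu' : Subgroup.closure (Set.range u') = ⊤ := by
    have h1 : Subgroup.closure ((fun i => (h' i).1) '' A) =
        Subgroup.closure ((fun i => (h i).1) '' A) :=
      (hrel.map (MonoidHom.fst (FreeGroup α) (Multiplicative ℤ))).closure_eq
        (Set.Subset.refl _)
    rw [eq_top_iff, ← hu, Subgroup.closure_le]
    rintro _ ⟨a, rfl⟩
    by_cases ha : a ∈ I
    · have h2 : u a ∈ Subgroup.closure ((fun i => (h i).1) '' A) := by
        apply Subgroup.subset_closure
        refine ⟨k a, ⟨a, ha, rfl⟩, ?_⟩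
        simp only [hh a ha]
      rw [← h1] at h2
      have h3 : Subgroup.closure ((fun i => (h' i).1) '' A) ≤
          Subgroup.closure (Set.range u') := by
        apply Subgroup.closure_mono
        rintro _ ⟨i, ⟨b, hb, rfl⟩, rfl⟩
        exact ⟨b, by simp only [u', if_pos hb]⟩
      exact h3 h2
    · apply Subgroup.subset_closure
      exact ⟨a, by simp only [u', if_neg ha]⟩
  let I' : Finset α := I.filter (fun a => (h' (k a)).2 = 1)
  have hI'card : I.card ≤ I'.card + 1 := by
    have h1 : (I.filter (fun a => ¬ (h' (k a)).2 = 1)).card ≤ 1 := by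
      rw [Finset.card_le_one]
      intro a ha b hb
      by_contra hab
      obtain ⟨ha1, ha2⟩ := Finset.mem_filter.1 ha
      obtain ⟨hb1, hb2⟩ := Finset.mem_filter.1 hb
      have hkab : k a ≠ k b := fun hh => hab (hkinj a ha1 b hb1 hh)
      rcases hmin (k a) ⟨a, ha1, rfl⟩ (k b) ⟨b, hb1, rfl⟩ hkab with h2 | h2
      · exact ha2 h2
      · exact hb2 h2
    have h2 := Finset.card_filter_add_card_filter_not (s := I) (fun a => (h' (k a)).2 = 1)
    have h3 : I'.card = (I.filter (fun a => (h' (k a)).2 = 1)).card := rfl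
    omega
  have hD' : Subgroup.closure (g' '' {i | i ∉ D}) = ⊤ := by
    rw [(htr'.mono hAD hAD).closure_eq (Set.Subset.refl _), hD]
  obtain ⟨g'', E1, E2, hr, hstd⟩ := main_basis g' u' hu' I' D hD' (by
    intro a ha
    obtain ⟨ha1, ha2⟩ := Finset.mem_filter.1 ha
    refine ⟨k a, hkD a ha1, ?_⟩
    have hkA : k a ∈ A := ⟨a, ha1, rfl⟩
    rw [hg']
    simp only [if_pos hkA]
    rw [hf, ha2]
    simp only [toAdd_one, zpow_zero, u', if_pos ha1]) (by omega)
  exact ⟨g'', E1, E2, (htr'.mono (Set.subset_univ _) (Set.subset_univ _)).trans hr, hstd⟩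

/-- from the unordered standard form to the standard tuple -/
theorem nielsen_of_isStd (g g' : ι → FreeGroup α × FreeGroup γ) (E1 : α → ι) (E2 : γ → ι)
    (hr : Rel Set.univ Set.univ g g') (hs : IsStd g' E1 E2) (E : α ⊕ γ ↪ ι) :
    Nielsen (stdTuple E) g := by
  classical
  obtain ⟨h1, h2, h3⟩ := hs
  have hinj : Injective (Sum.elim E1 E2) := by
    intro x y hxy
    have hv : ∀ z : α ⊕ γ, g' (Sum.elim E1 E2 z) =
        Sum.elim (fun i => ((of i, 1) : FreeGroup α × FreeGroup γ)) (fun j => (1, of j)) z := by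
      rintro (a | c)
      · exact h1 a
      · exact h2 c
    have h4 := hv x
    rw [hxy, hv y] at h4
    rcases x with a | c <;> rcases y with b | d
    · simp only [Sum.elim_inl, Prod.mk.injEq, and_true] at h4
      rw [of_injective h4]
    · simp only [Sum.elim_inl, Sum.elim_inr, Prod.mk.injEq] at h4
      exact absurd h4.1.symm (of_ne_one a)
    · simp only [Sum.elim_inl, Sum.elim_inr, Prod.mk.injEq] at h4
      exact absurd h4.1 (of_ne_one b)
    · simp only [Sum.elim_inr, Prod.mk.injEq, true_and] at h4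
      rw [of_injective h4]
  let E' : α ⊕ γ ↪ ι := ⟨Sum.elim E1 E2, hinj⟩
  let e0 : {i // i ∈ Set.range E'} ≃ {i // i ∈ Set.range E} :=
    (Equiv.ofInjective E' E'.injective).symm.trans (Equiv.ofInjective E E.injective)
  let σ : Equiv.Perm ι := Equiv.extendSubtype e0
  have hσ : ∀ x, σ (E' x) = E x := by
    intro x
    have := Equiv.extendSubtype_apply_of_mem e0 (E' x) ⟨x, rfl⟩
    rw [this]
    simp only [e0, Equiv.trans_apply]
    have h5 : (Equiv.ofInjective E' E'.injective).symm ⟨E' x, ⟨x, rfl⟩⟩ = x :=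
      Equiv.ofInjective_symm_apply E'.injective x
    rw [h5]
    rfl
  have hσ' : ∀ i, i ∉ Set.range E' → σ i ∉ Set.range E := by
    intro i hi
    exact Equiv.extendSubtype_not_mem e0 i hi
  have hg' : g' = stdTuple E ∘ σ := by
    funext i
    by_cases hi : i ∈ Set.range E'
    · obtain ⟨x, rfl⟩ := hi
      show g' (E' x) = stdTuple E (σ (E' x))
      rw [hσ]
      unfold stdTuple
      rw [E.injective.extend_apply]
      rcases x with a | c
      · exact h1 a
      · exact h2 c
    · show g' i = stdTuple E (σ i)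
      unfold stdTuple
      rw [Function.extend_apply' _ _ _ (fun ⟨x, hx⟩ => hσ' i hi ⟨x, hx⟩)]
      apply h3 i
      · intro a ha
        exact hi ⟨Sum.inl a, ha.symm⟩
      · intro c hc
        exact hi ⟨Sum.inr c, hc.symm⟩
  have s1 : Move (stdTuple E) g' := Or.inl ⟨σ, hg'⟩
  exact Relation.ReflTransGen.trans (Relation.ReflTransGen.single s1)
    (rel_nielsen_move hr.symm)

end main

end Pool.Agent.H81.Nls
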