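import Pool.Agent.H81.Nls.Cp

/-!
Nielsen reduced sets in a free group: a reduced product of t elements has length at least t.
-/

namespace Pool.Agent.H81.Nls

open FreeGroup

variable {α : Type*} [DecidableEq α]

/-- Nielsen reduced symmetric sets. -/
structure Nred (S : Set (FreeGroup α)) : Prop where
  one : (1 : FreeGroup α) ∉ S
  inv : ∀ u ∈ S, u⁻¹ ∈ S
  n1 : ∀ u ∈ S, ∀ v ∈ S, u * v ≠ 1 → 2 * gp u⁻¹ v ≤ FreeGroup.norm v
  n2 : ∀ u ∈ S, ∀ v ∈ S, ∀ w ∈ S, u * v ≠ 1 → v * w ≠ 1 →
    gp u⁻¹ v + gp v⁻¹ w < FreeGroup.norm v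

lemma Nred.norm_pos {S : Set (FreeGroup α)} (h : Nred S) {u : FreeGroup α} (hu : u ∈ S) :
    0 < FreeGroup.norm u :=
  Nat.pos_of_ne_zero (fun h0 => h.one (by rwa [norm_eq_zero.1 h0] at hu))

lemma Nred.chain {S : Set (FreeGroup α)} (h : Nred S) :
    ∀ (L : List (FreeGroup α)) (u : FreeGroup α), (∀ x ∈ u :: L, x ∈ S) →
      List.IsChain (fun x y => x * y ≠ 1) (u :: L) →
      ((∀ v ∈ S, v * u ≠ 1 → gp v⁻¹ (u :: L).prod = gp v⁻¹ u ∧
          (u :: L).length + gp v⁻¹ u ≤ FreeGroup.norm (u :: L).prod) ∧
        (u :: L).length ≤ FreeGroup.norm (u :: L).prod) := by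
  intro L
  induction L with
  | nil =>
    intro u hu _
    have huS : u ∈ S := hu u (by simp)
    have hpos := h.norm_pos huS
    simp only [List.prod_cons, List.prod_nil, mul_one, List.length_cons, List.length_nil,
      zero_add]
    refine ⟨?_, hpos⟩
    intro v hv hvu
    have := h.n1 v hv u huS hvu
    exact ⟨trivial, by omega⟩
  | cons u' L ih =>
    intro u hu hch
    have huS : u ∈ S := hu u (by simp)
    have hu'S : u' ∈ S := hu u' (by simp)
    rw [List.isChain_cons_cons] at hch
    obtain ⟨ih1, ih2⟩ := ih u' (fun x hx => hu x (by simp [hx])) hch.2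
    obtain ⟨hg, hlen⟩ := ih1 u huS hch.1
    set P := (u' :: L).prod with hP
    have hPn : (u :: u' :: L).prod = u * P := by rw [List.prod_cons]
    rw [hPn]
    have hn := norm_mul_eq u P
    rw [hg] at hn
    have hpos := h.norm_pos huS
    have h1 : 2 * gp u⁻¹ u' ≤ FreeGroup.norm u := by
      have := h.n1 u'⁻¹ (h.inv _ hu'S) u⁻¹ (h.inv _ huS) (by
        intro hh
        apply hch.1
        have h2 := congrArg (fun z => z⁻¹) hh
        simpa using h2)
      rw [inv_inv, norm_inv_eq, gp_comm] at this
      exact this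
    have hlenL : (u :: u' :: L).length = (u' :: L).length + 1 := rfl
    rw [hlenL]
    constructor
    · intro v hv hvu
      have hn2 := h.n2 v hv u huS u' hu'S hvu hch.1
      have hgP : gp u (u * P) = FreeGroup.norm u - gp u⁻¹ u' := by
        have h3 := norm_inv_mul u (u * P)
        rw [inv_mul_cancel_left] at h3
        omega
      have hu1 := gp_ultra v⁻¹ u (u * P)
      have hu2 := gp_ultra v⁻¹ (u * P) u
      rw [gp_comm (u * P) u] at hu2
      have hgeq : gp v⁻¹ (u * P) = gp v⁻¹ u := by
        rw [hgP] at hu1 hu2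
        apply le_antisymm
        · by_contra hlt
          push Not at hlt
          have : gp v⁻¹ u < min (gp v⁻¹ (u * P)) (FreeGroup.norm u - gp u⁻¹ u') :=
            lt_min hlt (by omega)
          omega
        · have : gp v⁻¹ u ≤ min (gp v⁻¹ u) (FreeGroup.norm u - gp u⁻¹ u') :=
            le_min le_rfl (by omega)
          omega
      refine ⟨hgeq, ?_⟩
      omega
    · omega

/-- Every product of elements of a symmetric set is a reduced product. -/
lemma exists_chain (S : Set (FreeGroup α)) (L : List (FreeGroup α)) (hL : ∀ x ∈ L, x ∈ S) :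
    ∃ L' : List (FreeGroup α), (∀ x ∈ L', x ∈ S) ∧ L'.prod = L.prod ∧
      List.IsChain (fun x y => x * y ≠ 1) L' := by
  induction L with
  | nil => exact ⟨[], by simp, rfl, List.isChain_nil⟩
  | cons u L ih =>
    obtain ⟨L', h1, h2, h3⟩ := ih (fun x hx => hL x (by simp [hx]))
    have huS : u ∈ S := hL u (by simp)
    cases L' with
    | nil =>
      refine ⟨[u], by simpa using huS, by simp only [List.prod_cons, ← h2], List.isChain_singleton _⟩
    | cons v L'' =>
      by_cases huv : u * v = 1
      · refine ⟨L'', fun x hx => h1 x (by simp [hx]), ?_, ?_⟩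
        · rw [List.prod_cons, ← h2, List.prod_cons, ← mul_assoc, huv, one_mul]
        · exact h3.of_cons
      · refine ⟨u :: v :: L'', ?_, ?_, ?_⟩
        · intro x hx
          rcases List.mem_cons.1 hx with rfl | hx
          · exact huS
          · exact h1 x hx
        · rw [List.prod_cons, h2, List.prod_cons]
        · exact List.isChain_cons_cons.2 ⟨huv, h3⟩

/-- A letter in the subgroup generated by a reduced symmetric set belongs to the set. -/
theorem Nred.mem_of_norm_one {S : Set (FreeGroup α)} (h : Nred S) {x : FreeGroup α}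
    (hx : x ∈ Subgroup.closure S) (hn : FreeGroup.norm x = 1) : x ∈ S := by
  have hx' : x ∈ Submonoid.closure (S ∪ S⁻¹) := by
    rw [← Subgroup.closure_toSubmonoid]
    exact hx
  obtain ⟨L, hL, hprod⟩ := Submonoid.exists_list_of_mem_closure hx'
  have hL' : ∀ y ∈ L, y ∈ S := by
    intro y hy
    rcases hL y hy with h1 | h1
    · exact h1
    · have := h.inv _ (Set.mem_inv.1 h1)
      rwa [inv_inv] at this
  obtain ⟨L', h1, h2, h3⟩ := exists_chain S L hL'
  rw [hprod] at h2
  cases L' with
  | nil =>
    simp only [List.prod_nil] at h2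
    rw [← h2, FreeGroup.norm_one] at hn
    omega
  | cons u L'' =>
    have := (h.chain L'' u h1 h3).2
    rw [h2, hn] at this
    cases L'' with
    | nil =>
      simp only [List.prod_cons, List.prod_nil, mul_one] at h2
      rw [← h2]
      exact h1 u (by simp)
    | cons v L3 => simp at this

end Pool.Agent.H81.Nls
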