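import Pool.Agent.H81.Nls.Chain

/-!
A numerical code of words which breaks the ties in the Nielsen reduction.
-/

namespace Pool.Agent.H81.Nls

open FreeGroup

variable {α : Type*} [Fintype α] [DecidableEq α]

/-- digit of a letter -/
noncomputable def dig (x : α × Bool) : ℕ := (Fintype.equivFin (α × Bool) x).val

/-- base of the code -/
def bas (α : Type*) [Fintype α] : ℕ := Fintype.card (α × Bool) + 1

lemma dig_lt (x : α × Bool) : dig x < bas α :=
  (Fintype.equivFin (α × Bool) x).isLt.trans (Nat.lt_succ_self _)

lemma dig_inj : Function.Injective (dig : α × Bool → ℕ) := by
  intro x y h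
  exact (Fintype.equivFin (α × Bool)).injective (Fin.ext h)

/-- code of a word -/
noncomputable def code : List (α × Bool) → ℕ
  | [] => 0
  | a :: l => dig a * bas α ^ l.length + code l

lemma bas_pos : 0 < bas α := Nat.succ_pos _

lemma code_lt (l : List (α × Bool)) : code l < bas α ^ l.length := by
  induction l with
  | nil => simp [code]
  | cons a l ih =>
    simp only [code, List.length_cons, pow_succ]
    have h1 := dig_lt a
    have h2 : dig a + 1 ≤ bas α := h1
    calc dig a * bas α ^ l.length + code l
        < dig a * bas α ^ l.length + bas α ^ l.length := by omega
      _ = (dig a + 1) * bas α ^ l.length := by ring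
      _ ≤ bas α * bas α ^ l.length := Nat.mul_le_mul_right _ h2
      _ = bas α ^ l.length * bas α := by ring

lemma code_append (l m : List (α × Bool)) :
    code (l ++ m) = code l * bas α ^ m.length + code m := by
  induction l with
  | nil => simp [code]
  | cons a l ih =>
    simp only [List.cons_append, code, ih, List.length_append, pow_add]
    ring

lemma code_inj {l m : List (α × Bool)} (hlen : l.length = m.length) (h : code l = code m) :
    l = m := by
  induction l generalizing m with
  | nil => exact (List.length_eq_zero_iff.1 hlen.symm).symm
  | cons a l ih =>
    cases m with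
    | nil => simp at hlen
    | cons b m =>
      simp only [List.length_cons, Nat.add_right_cancel_iff] at hlen
      simp only [code] at h
      rw [hlen] at h
      have h1 := code_lt l
      have h2 := code_lt m
      rw [hlen] at h1
      set B := bas α ^ m.length
      have hd : dig a = dig b := by
        have e1 : (dig a * B + code l) / B = dig a := by
          rw [mul_comm, Nat.mul_add_div (by omega), Nat.div_eq_of_lt h1, add_zero]
        have e2 : (dig b * B + code m) / B = dig b := by
          rw [mul_comm, Nat.mul_add_div (by omega), Nat.div_eq_of_lt h2, add_zero]
        rw [← e1, ← e2, h]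
      have hc : code l = code m := by
        rw [hd] at h
        omega
      rw [dig_inj hd, ih hlen hc]

/-- second part of the potential of an element -/
noncomputable def wt (x : FreeGroup α) : ℕ := code x.toWord + code x⁻¹.toWord

lemma wt_inv (x : FreeGroup α) : wt x⁻¹ = wt x := by
  unfold wt
  rw [inv_inv, add_comm]

lemma invRev_append' (l m : List (α × Bool)) : invRev (l ++ m) = invRev m ++ invRev l := by
  simp [invRev]

lemma invRev_drop_invRev (l : List (α × Bool)) (h : ℕ) :
    invRev ((invRev l).drop h) = l.take (l.length - h) := by
  have h1 : (invRev l).drop h = invRev (l.take (l.length - h)) := by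
    unfold invRev
    rw [List.drop_reverse, List.length_map, List.map_take]
  rw [h1, invRev_invRev]

lemma swap_lt {v w : FreeGroup α} {h : ℕ} (hv : FreeGroup.norm v = 2 * h)
    (hg : gp v⁻¹ w = h) (hw : 2 * h ≤ FreeGroup.norm w)
    (hc : code (v.toWord.take h) < code ((v⁻¹).toWord.take h)) :
    FreeGroup.norm (v * w) = FreeGroup.norm w ∧ wt (v * w) < wt w := by
  constructor
  · have := norm_mul_eq v w
    omega
  · have e1 : (v * w).toWord = v.toWord.take h ++ w.toWord.drop h := by
      have := toWord_inv_mul v⁻¹ w
      rw [inv_inv, hg, toWord_inv, invRev_drop_invRev] at this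
      rw [this]
      congr 2
      have : v.toWord.length = 2 * h := hv
      omega
    have e2 : w.toWord = (v⁻¹).toWord.take h ++ w.toWord.drop h := by
      have : (v⁻¹).toWord.take h = w.toWord.take h := by
        apply take_eq_of_le_cpl
        exact hg.symm.le
      rw [this, List.take_append_drop]
    set p := v.toWord.take h with hp
    set q := (v⁻¹).toWord.take h with hq
    set r := w.toWord.drop h with hr
    have hpl : p.length = h := by
      rw [hp, List.length_take]
      have : v.toWord.length = 2 * h := hv
      omega
    have hql : q.length = h := by
      rw [hq, List.length_take]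
      have : (v⁻¹).toWord.length = 2 * h := by
        have := norm_inv_eq (x := v)
        unfold FreeGroup.norm at this hv
        omega
      omega
    have hrl : h ≤ r.length := by
      rw [hr, List.length_drop]
      unfold FreeGroup.norm at hw
      omega
    unfold wt
    rw [toWord_inv, toWord_inv, e1, e2, invRev_append', invRev_append', code_append, code_append,
      code_append, code_append, invRev_length, invRev_length, hpl, hql]
    have h1 := code_lt (invRev p)
    rw [invRev_length, hpl] at h1
    have h2 : bas α ^ h ≤ bas α ^ r.length := Nat.pow_le_pow_right bas_pos hrl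
    have h3 : (code p + 1) * bas α ^ r.length ≤ code q * bas α ^ r.length :=
      Nat.mul_le_mul_right _ hc
    rw [add_mul, one_mul] at h3
    omega

end Pool.Agent.H81.Nls
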