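import Mathlib

/-!
Longest common prefixes and the Gromov product on a free group.
-/

namespace Pool.Agent.H81.Nls

section lists

variable {β : Type*} [DecidableEq β]

/-- length of the longest common prefix of two lists -/
def cpl : List β → List β → ℕ
  | [], _ => 0
  | _ :: _, [] => 0
  | a :: l, b :: m => if a = b then cpl l m + 1 else 0

lemma cpl_comm (x y : List β) : cpl x y = cpl y x := by
  induction x generalizing y with
  | nil => cases y <;> simp [cpl]
  | cons a l ih =>
    cases y with
    | nil => simp [cpl]
    | cons b m =>
      simp only [cpl]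
      by_cases h : a = b
      · subst h
        simp [ih m]
      · rw [if_neg h, if_neg (Ne.symm h)]

lemma cpl_le_left (x y : List β) : cpl x y ≤ x.length := by
  induction x generalizing y with
  | nil => simp [cpl]
  | cons a l ih =>
    cases y with
    | nil => simp [cpl]
    | cons b m =>
      simp only [cpl]
      split_ifs
      · simpa using ih m
      · simp

lemma cpl_le_right (x y : List β) : cpl x y ≤ y.length := by
  rw [cpl_comm]; exact cpl_le_left y x

lemma take_cpl (x y : List β) : x.take (cpl x y) = y.take (cpl x y) := by
  induction x generalizing y with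
  | nil => simp [cpl]
  | cons a l ih =>
    cases y with
    | nil => simp [cpl]
    | cons b m =>
      simp only [cpl]
      split_ifs with h
      · subst h
        simp [ih m]
      · simp

lemma take_eq_of_le_cpl {x y : List β} {k : ℕ} (h : k ≤ cpl x y) : x.take k = y.take k := by
  have h1 := take_cpl x y
  have h2 := congrArg (List.take k) h1
  rwa [List.take_take, List.take_take, min_eq_left h] at h2

lemma le_cpl_of_take {x y : List β} {k : ℕ} (hx : k ≤ x.length) (hy : k ≤ y.length)
    (h : x.take k = y.take k) : k ≤ cpl x y := by
  induction k generalizing x y with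
  | zero => exact Nat.zero_le _
  | succ k ih =>
    cases x with
    | nil => simp at hx
    | cons a l =>
      cases y with
      | nil => simp at hy
      | cons b m =>
        simp only [List.take_succ_cons, List.cons.injEq] at h
        simp only [List.length_cons, Nat.add_le_add_iff_right] at hx hy
        simp only [cpl, if_pos h.1]
        exact Nat.succ_le_succ (ih hx hy h.2)

lemma cpl_ultra (x y z : List β) : min (cpl x y) (cpl y z) ≤ cpl x z := by
  set k := min (cpl x y) (cpl y z) with hk
  have h1 : k ≤ cpl x y := min_le_left _ _
  have h2 : k ≤ cpl y z := min_le_right _ _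
  exact le_cpl_of_take (h1.trans (cpl_le_left x y)) (h2.trans (cpl_le_right y z))
    ((take_eq_of_le_cpl h1).trans (take_eq_of_le_cpl h2))

lemma drop_cpl_ne {x y : List β} {a b : β} {l m : List β}
    (hx : x.drop (cpl x y) = a :: l) (hy : y.drop (cpl x y) = b :: m) : a ≠ b := by
  induction x generalizing y with
  | nil => simp at hx
  | cons c x ih =>
    cases y with
    | nil => simp at hy
    | cons d y =>
      simp only [cpl] at hx hy
      by_cases h : c = d
      · rw [if_pos h] at hx hy
        simp only [List.drop_succ_cons] at hx hy
        exact ih hx hy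
      · rw [if_neg h] at hx hy
        simp only [List.drop_zero, List.cons.injEq] at hx hy
        rw [← hx.1, ← hy.1]
        exact h

end lists

section free

open FreeGroup

variable {α : Type*} [DecidableEq α]

/-- the Gromov product of two elements of a free group: length of the common prefix of the
reduced words -/
def gp (x y : FreeGroup α) : ℕ := cpl x.toWord y.toWord

lemma gp_comm (x y : FreeGroup α) : gp x y = gp y x := cpl_comm _ _

lemma gp_le_left (x y : FreeGroup α) : gp x y ≤ norm x := cpl_le_left _ _

lemma gp_le_right (x y : FreeGroup α) : gp x y ≤ norm y := cpl_le_right _ _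

lemma gp_ultra (x y z : FreeGroup α) : min (gp x y) (gp y z) ≤ gp x z := cpl_ultra _ _ _

lemma isReduced_invRev {L : List (α × Bool)} (h : IsReduced L) : IsReduced (invRev L) := by
  rw [isReduced_iff_reduce_eq, reduce_invRev, h.reduce_eq]

lemma getLast?_invRev (L : List (α × Bool)) :
    (invRev L).getLast? = L.head?.map (fun g => (g.1, !g.2)) := by
  rw [invRev, List.getLast?_reverse, List.head?_map]

lemma toWord_inv_mul (x y : FreeGroup α) :
    (x⁻¹ * y).toWord = invRev (x.toWord.drop (gp x y)) ++ y.toWord.drop (gp x y) := by
  set c := gp x y with hc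
  set a := x.toWord.drop c with ha
  set b := y.toWord.drop c with hb
  have hxa : x.toWord = x.toWord.take c ++ a := (List.take_append_drop c _).symm
  have hyb : y.toWord = x.toWord.take c ++ b := by
    rw [show x.toWord.take c = y.toWord.take c from take_cpl _ _]
    exact (List.take_append_drop c _).symm
  have hx : x = mk (x.toWord.take c) * mk a := by
    rw [mul_mk, ← hxa, mk_toWord]
  have hy : y = mk (x.toWord.take c) * mk b := by
    rw [mul_mk, ← hyb, mk_toWord]
  have hprod : x⁻¹ * y = mk (invRev a ++ b) := by
    conv_lhs => rw [hx, hy]
    rw [← mul_mk, ← inv_mk]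
    group
  rw [hprod, toWord_mk]
  apply IsReduced.reduce_eq
  have hra : IsReduced a := List.IsChain.drop (isReduced_toWord (x := x)) c
  have hrb : IsReduced b := List.IsChain.drop (isReduced_toWord (x := y)) c
  have hria := isReduced_invRev hra
  unfold FreeGroup.IsReduced at hria hrb ⊢
  rw [List.isChain_append]
  refine ⟨hria, hrb, ?_⟩
  intro u hu v hv huv
  rw [getLast?_invRev] at hu
  cases hca : a with
  | nil => rw [hca] at hu; simp at hu
  | cons a0 l =>
    cases hcb : b with
    | nil => rw [hcb] at hv; simp at hv
    | cons b0 m =>
      rw [hca] at hu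
      rw [hcb] at hv
      simp only [List.head?_cons, Option.map_some, Option.mem_def, Option.some.injEq] at hu hv
      have hne : a0 ≠ b0 := drop_cpl_ne (x := x.toWord) (y := y.toWord) (l := l) (m := m)
        (by rw [← hca]; rfl) (by rw [← hcb]; rfl)
      subst hu
      subst hv
      simp only at huv ⊢
      have h2 : a0.2 ≠ b0.2 := fun h => hne (Prod.ext huv h)
      revert h2
      cases a0.2 <;> cases b0.2 <;> simp

lemma norm_inv_mul (x y : FreeGroup α) :
    norm (x⁻¹ * y) + 2 * gp x y = norm x + norm y := by
  have h1 := gp_le_left x y
  have h2 := gp_le_right x y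
  have h3 : norm (x⁻¹ * y) = (norm x - gp x y) + (norm y - gp x y) := by
    unfold FreeGroup.norm
    rw [toWord_inv_mul, List.length_append, invRev_length, List.length_drop, List.length_drop]
  omega

lemma norm_mul_eq (x y : FreeGroup α) :
    norm (x * y) + 2 * gp x⁻¹ y = norm x + norm y := by
  have h := norm_inv_mul x⁻¹ y
  rwa [inv_inv, norm_inv_eq] at h

/-- an element and its inverse have a short common prefix -/
lemma two_mul_gp_inv_lt {x : FreeGroup α} (hx : x ≠ 1) : 2 * gp x⁻¹ x < norm x := by
  by_contra hcon
  push Not at hcon
  set L := x.toWord with hL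
  have hLlen : L.length = norm x := rfl
  have hpos : 0 < norm x := Nat.pos_of_ne_zero (fun h => hx (norm_eq_zero.1 h))
  have hi : ∀ i, i < gp x⁻¹ x → L[i]? = (invRev L)[i]? := by
    intro i hi
    have h1 : (x⁻¹).toWord.take (i+1) = x.toWord.take (i+1) := take_eq_of_le_cpl hi
    rw [toWord_inv, ← hL] at h1
    have h2 := congrArg (fun l => l[i]?) h1
    simp only [List.getElem?_take_of_lt (Nat.lt_succ_self i)] at h2
    exact h2.symm
  have hinv : ∀ i, i < norm x → (invRev L)[i]? = (L[norm x - 1 - i]?).map (fun g => (g.1, !g.2)) := by
    intro i hi
    rw [invRev, List.getElem?_reverse (by simpa [hLlen] using hi)]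
    simp [hLlen]
  have hred : IsReduced L := isReduced_toWord
  rcases Nat.even_or_odd' (norm x) with ⟨h, hh | hh⟩
  · -- even case
    have h1 : h - 1 < gp x⁻¹ x := by omega
    have e1 := hi (h-1) h1
    rw [hinv (h-1) (by omega)] at e1
    have hidx : norm x - 1 - (h - 1) = (h - 1) + 1 := by omega
    rw [hidx] at e1
    have hl1 : h - 1 < L.length := by omega
    have hl2 : (h - 1) + 1 < L.length := by omega
    rw [List.getElem?_eq_getElem hl1, List.getElem?_eq_getElem hl2] at e1
    simp only [Option.map_some, Option.some.injEq] at e1
    unfold FreeGroup.IsReduced at hred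
    have hr := List.isChain_iff_getElem.1 hred (h-1) hl2
    have h3 : (L[h-1]).1 = (L[(h-1)+1]).1 := by rw [e1]
    have h4 := hr h3
    rw [e1] at h4
    simp at h4
  · have h1 : h < gp x⁻¹ x := by omega
    have e1 := hi h h1
    rw [hinv h (by omega)] at e1
    have hidx : norm x - 1 - h = h := by omega
    rw [hidx] at e1
    have hl1 : h < L.length := by omega
    rw [List.getElem?_eq_getElem hl1] at e1
    simp only [Option.map_some, Option.some.injEq] at e1
    have h4 := congrArg Prod.snd e1
    simp at h4

end free

end Pool.Agent.H81.Nls
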