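import Pool.Agent.H81.Nls.Rel

/-!
Euclid's algorithm for the values of a homomorphism to the integers.
-/

namespace Pool.Agent.H81.Nls

open Function

variable {ι : Type*} [Fintype ι] [DecidableEq ι] {G : Type*} [Group G]

lemma sum_upd' (f : G → ℕ) (w : ι → G) (i : ι) (z : G) :
    (∑ k, f (update w i z k)) + f (w i) = (∑ k, f (w k)) + f z := by
  rw [← Finset.add_sum_erase Finset.univ (fun k => f (update w i z k)) (Finset.mem_univ i),
    ← Finset.add_sum_erase Finset.univ (fun k => f (w k)) (Finset.mem_univ i)]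
  have h : ∑ k ∈ Finset.univ.erase i, f (update w i z k) =
      ∑ k ∈ Finset.univ.erase i, f (w k) := by
    apply Finset.sum_congr rfl
    intro k hk
    rw [update_of_ne (Finset.ne_of_mem_erase hk)]
  rw [h]
  simp only [update_self]
  omega

/-- Euclid's algorithm: at most one entry in `A` has a nonzero value. -/
theorem euclid (A : Set ι) (s : G →* Multiplicative ℤ) (g : ι → G) :
    ∃ g', Rel A A g g' ∧ ∀ i ∈ A, ∀ j ∈ A, i ≠ j → s (g' i) = 1 ∨ s (g' j) = 1 := by
  let f : G → ℕ := fun x => (Multiplicative.toAdd (s x)).natAbs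
  obtain ⟨g', hg', hmin⟩ := (InvImage.wf (fun v : ι → G => ∑ k, f (v k))
    (wellFounded_lt)).has_min {v | Rel A A g v} ⟨g, Rel.refl g⟩
  refine ⟨g', hg', ?_⟩
  have key : ∀ i ∈ A, ∀ j ∈ A, i ≠ j → s (g' i) ≠ 1 → s (g' j) ≠ 1 → f (g' j) ≤ f (g' i) →
      False := by
    intro i hi j hj hij h1 h2 hle
    have hmem : g' j ∈ Subgroup.closure (g' '' (A \ {i})) :=
      Subgroup.subset_closure ⟨j, ⟨hj, fun hh => hij (by simpa using hh.symm)⟩, rfl⟩
    have n1 : Multiplicative.toAdd (s (g' i)) ≠ 0 := fun hh => h1 (by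
      rw [← ofAdd_toAdd (s (g' i)), hh]; rfl)
    have n2 : Multiplicative.toAdd (s (g' j)) ≠ 0 := fun hh => h2 (by
      rw [← ofAdd_toAdd (s (g' j)), hh]; rfl)
    have hle' : (Multiplicative.toAdd (s (g' j))).natAbs ≤
        (Multiplicative.toAdd (s (g' i))).natAbs := hle
    have a1 := hmin (update g' i (g' i * g' j)) (Rel.trans hg' (rel_absorb hi hmem))
    have a2 := hmin (update g' i (g' i * (g' j)⁻¹)) (Rel.trans hg' (rel_absorb hi (inv_mem hmem)))
    have b1 : ¬ (∑ k, f (update g' i (g' i * g' j) k) < ∑ k, f (g' k)) := a1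
    have b2 : ¬ (∑ k, f (update g' i (g' i * (g' j)⁻¹) k) < ∑ k, f (g' k)) := a2
    have c1 := sum_upd' f g' i (g' i * g' j)
    have c2 := sum_upd' f g' i (g' i * (g' j)⁻¹)
    have d1 : f (g' i * g' j) =
        (Multiplicative.toAdd (s (g' i)) + Multiplicative.toAdd (s (g' j))).natAbs := by
      simp only [f, map_mul, toAdd_mul]
    have d2 : f (g' i * (g' j)⁻¹) =
        (Multiplicative.toAdd (s (g' i)) - Multiplicative.toAdd (s (g' j))).natAbs := by
      simp only [f, map_mul, map_inv, toAdd_mul, toAdd_inv, sub_eq_add_neg]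
    have d3 : f (g' i) = (Multiplicative.toAdd (s (g' i))).natAbs := rfl
    rw [d1, d3] at c1
    rw [d2, d3] at c2
    omega
  intro i hi j hj hij
  by_contra hcon
  push Not at hcon
  rcases le_total (f (g' j)) (f (g' i)) with h | h
  · exact key i hi j hj hij hcon.1 hcon.2 h
  · exact key j hj i hi hij.symm hcon.2 hcon.1 h

end Pool.Agent.H81.Nls
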