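import Pool.Agent.H81.Nls.Main

/-!
Final forms.
-/

namespace Pool.Agent.H81.Nls

open Function FreeGroup

section fin

variable {ι : Type*} [Fintype ι] [DecidableEq ι]

lemma Nielsen.map {ι : Type*} [DecidableEq ι] {G H : Type*} [Group G] [Group H] (f : G →* H)
    {a b : ι → G} (h : Nielsen a b) : Nielsen (fun i => f (a i)) (fun i => f (b i)) := by
  have hupd : ∀ (g : ι → G) (i : ι) (z : G),
      (fun k => f (update g i z k)) = update (fun k => f (g k)) i (f z) := by
    intro g i z
    funext k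
    by_cases hk : k = i
    · subst hk; simp
    · simp [hk]
  induction h with
  | refl => exact Relation.ReflTransGen.refl
  | tail _ h2 ih =>
    refine Relation.ReflTransGen.tail ih ?_
    rcases h2 with ⟨σ, h⟩ | ⟨i, h⟩ | ⟨i, j, hij, h⟩
    · left
      exact ⟨σ, by rw [h]; rfl⟩
    · right; left
      exact ⟨i, by rw [h, hupd, _root_.map_inv]⟩
    · right; right
      exact ⟨i, j, hij, by rw [h, hupd, _root_.map_mul]⟩

theorem final_left (p q : ℕ) (hp : 0 < p)
    (g : ι → FreeGroup (Fin p) × FreeGroup (Fin q))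
    (u : Fin p → FreeGroup (Fin p)) (hu : Subgroup.closure (Set.range u) = ⊤)
    (I : Finset (Fin p)) (D : Finset ι) (c : FreeGroup (Fin q)) (m : Fin p → ℤ)
    (hD : Subgroup.closure (g '' {i | i ∉ D}) = ⊤)
    (hI : ∀ a ∈ I, ∃ i, i ∉ D ∧ g i = (u a, c ^ m a))
    (hcard : p ≤ I.card + D.card ∨ (p ≤ I.card + D.card + 1 ∧ ∀ a ∈ I, m a = 0))
    (E : Fin p ⊕ Fin q ↪ ι) : Nielsen (stdTuple E) g := by
  haveI : Nonempty (Fin p) := ⟨⟨0, hp⟩⟩
  rcases hcard with h | ⟨h, hm⟩
  · obtain ⟨g', E1, E2, hr, hs⟩ := main_cyclic g u hu I D c m hD hI (by simpa using h)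
    exact nielsen_of_isStd g g' E1 E2 hr hs E
  · obtain ⟨g', E1, E2, hr, hs⟩ := main_basis g u hu I D hD (by
      intro a ha
      obtain ⟨i, hi, hgi⟩ := hI a ha
      refine ⟨i, hi, ?_⟩
      rw [hgi, hm a ha, zpow_zero]) (by simpa using h)
    exact nielsen_of_isStd g g' E1 E2 hr hs E

theorem final_right (p q : ℕ) (hq : 0 < q)
    (g : ι → FreeGroup (Fin p) × FreeGroup (Fin q))
    (u : Fin q → FreeGroup (Fin q)) (hu : Subgroup.closure (Set.range u) = ⊤)
    (I : Finset (Fin q)) (D : Finset ι) (c : FreeGroup (Fin p)) (m : Fin q → ℤ)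
    (hD : Subgroup.closure (g '' {i | i ∉ D}) = ⊤)
    (hI : ∀ a ∈ I, ∃ i, i ∉ D ∧ g i = (c ^ m a, u a))
    (hcard : q ≤ I.card + D.card ∨ (q ≤ I.card + D.card + 1 ∧ ∀ a ∈ I, m a = 0))
    (E : Fin p ⊕ Fin q ↪ ι) : Nielsen (stdTuple E) g := by
  let Sw : FreeGroup (Fin p) × FreeGroup (Fin q) ≃* FreeGroup (Fin q) × FreeGroup (Fin p) :=
    MulEquiv.prodComm
  have hSw : ∀ x, Sw x = (x.2, x.1) := fun x => rfl
  have hSws : ∀ x, Sw.symm x = (x.2, x.1) := fun x => rfl
  let E' : Fin q ⊕ Fin p ↪ ι := (Equiv.sumComm (Fin q) (Fin p)).toEmbedding.trans E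
  have h := final_left q p hq (fun i => Sw (g i)) u hu I D c m (by
      have : (fun i => Sw (g i)) '' {i | i ∉ D} = Sw.toMonoidHom '' (g '' {i | i ∉ D}) := by
        rw [Set.image_image]; rfl
      rw [this, ← MonoidHom.map_closure, hD]
      exact Subgroup.map_top_of_surjective _ Sw.surjective) (by
      intro a ha
      obtain ⟨i, hi, hgi⟩ := hI a ha
      exact ⟨i, hi, by rw [hgi, hSw]⟩) hcard E'
  have h2 := h.map Sw.symm.toMonoidHom
  have e1 : (fun i => Sw.symm.toMonoidHom (Sw (g i))) = g := by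
    funext i
    exact Sw.symm_apply_apply (g i)
  have e2 : (fun i => Sw.symm.toMonoidHom (stdTuple E' i)) = stdTuple E := by
    funext i
    by_cases hi : ∃ x, E x = i
    · obtain ⟨x, rfl⟩ := hi
      have h3 : E x = E' (Sum.swap x) := by
        show E x = E (Sum.swap (Sum.swap x))
        rw [Sum.swap_swap]
      have h4 : stdTuple E' (E x) = Sum.elim
          (fun i => ((FreeGroup.of i, 1) : FreeGroup (Fin q) × FreeGroup (Fin p)))
          (fun j => (1, FreeGroup.of j)) (Sum.swap x) := by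
        rw [h3]
        unfold stdTuple
        rw [E'.injective.extend_apply]
      have h5 : stdTuple E (E x) = Sum.elim
          (fun i => ((FreeGroup.of i, 1) : FreeGroup (Fin p) × FreeGroup (Fin q)))
          (fun j => (1, FreeGroup.of j)) x := by
        unfold stdTuple
        rw [E.injective.extend_apply]
      rw [h4, h5]
      rcases x with a | b
      · rfl
      · rfl
    · have h4 : stdTuple E i = 1 := by
        unfold stdTuple
        rw [Function.extend_apply' _ _ _ hi]
        rfl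
      have h5 : stdTuple E' i = 1 := by
        unfold stdTuple
        rw [Function.extend_apply']
        · rfl
        · rintro ⟨x, hx⟩
          exact hi ⟨Sum.swap x, hx⟩
      rw [h4, h5]
      rfl
  rw [e1, e2] at h2
  exact h2

/-- Adding `n - 1` trivial entries makes every generating `2n`-tuple standard. -/
theorem final_trivial (n : ℕ) (hn : 0 < n)
    (t : Fin n ⊕ Fin n → FreeGroup (Fin n) × FreeGroup (Fin n))
    (ht : Subgroup.closure (Set.range t) = ⊤) :
    Nielsen (ι := (Fin n ⊕ Fin n) ⊕ Fin (n - 1))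
      (Sum.elim (Sum.elim (fun i => (FreeGroup.of i, 1)) (fun i => (1, FreeGroup.of i)))
        (fun _ => 1))
      (Sum.elim t (fun _ => 1)) := by
  let E : Fin n ⊕ Fin n ↪ (Fin n ⊕ Fin n) ⊕ Fin (n - 1) := ⟨Sum.inl, Sum.inl_injective⟩
  have h := final_left n n hn
    (Sum.elim t (fun _ => 1) : (Fin n ⊕ Fin n) ⊕ Fin (n - 1) →
      FreeGroup (Fin n) × FreeGroup (Fin n)) FreeGroup.of (FreeGroup.closure_range_of _) ∅
    (Finset.univ.map ⟨Sum.inr, Sum.inr_injective⟩) 1 0 (by
      rw [eq_top_iff, ← ht]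
      apply Subgroup.closure_mono
      rintro _ ⟨i, rfl⟩
      exact ⟨Sum.inl i, by simp, rfl⟩) (by simp) (by
      right
      constructor
      · simp
        omega
      · simp) E
  have e : stdTuple E = Sum.elim (Sum.elim (fun i => (FreeGroup.of i, 1))
      (fun i => (1, FreeGroup.of i))) (fun _ => 1) := by
    funext i
    unfold stdTuple
    rcases i with x | k
    · have : (Sum.inl x : (Fin n ⊕ Fin n) ⊕ Fin (n - 1)) = E x := rfl
      rw [this, E.injective.extend_apply]
      rfl
    · rw [Function.extend_apply']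
      · rfl
      · rintro ⟨x, hx⟩
        cases hx
  rw [e] at h
  exact h

end fin

end Pool.Agent.H81.Nls
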