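import Mathlib

/-!
Elementary moves on tuples with a set of active entries and a set of multipliers.
-/

namespace Pool.Agent.H81.Nls

open Function

variable {ι : Type*} [DecidableEq ι] {G H : Type*} [Group G] [Group H]

/-- Elementary moves: an entry in `A` is inverted or multiplied on the right by an entry in `M`
(at another place) or by its inverse. -/
def Step (A M : Set ι) (g g' : ι → G) : Prop :=
  ∃ i ∈ A, g' = update g i (g i)⁻¹ ∨
    ∃ j ∈ M, j ≠ i ∧ (g' = update g i (g i * g j) ∨ g' = update g i (g i * (g j)⁻¹))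

/-- sequences of elementary moves -/
def Rel (A M : Set ι) (g g' : ι → G) : Prop := Relation.ReflTransGen (Step A M) g g'

lemma Rel.refl {A M : Set ι} (g : ι → G) : Rel A M g g := Relation.ReflTransGen.refl

lemma Rel.trans {A M : Set ι} {g g' g'' : ι → G} (h : Rel A M g g') (h' : Rel A M g' g'') :
    Rel A M g g'' := Relation.ReflTransGen.trans h h'

lemma Step.rel {A M : Set ι} {g g' : ι → G} (h : Step A M g g') : Rel A M g g' :=
  Relation.ReflTransGen.single h

lemma Step.symm {A M : Set ι} {g g' : ι → G} (h : Step A M g g') : Step A M g' g := by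
  obtain ⟨i, hi, h | ⟨j, hj, hji, h | h⟩⟩ := h
  · refine ⟨i, hi, Or.inl ?_⟩
    subst h
    simp
  · refine ⟨i, hi, Or.inr ⟨j, hj, hji, Or.inr ?_⟩⟩
    subst h
    simp [hji]
  · refine ⟨i, hi, Or.inr ⟨j, hj, hji, Or.inl ?_⟩⟩
    subst h
    simp [hji]

lemma Rel.symm {A M : Set ι} {g g' : ι → G} (h : Rel A M g g') : Rel A M g' g := by
  induction h with
  | refl => exact Rel.refl _
  | tail _ h2 ih => exact (Step.symm h2).rel.trans ih

lemma Step.mono {A M A' M' : Set ι} (hA : A ⊆ A') (hM : M ⊆ M') {g g' : ι → G}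
    (h : Step A M g g') : Step A' M' g g' := by
  obtain ⟨i, hi, h | ⟨j, hj, hji, h⟩⟩ := h
  · exact ⟨i, hA hi, Or.inl h⟩
  · exact ⟨i, hA hi, Or.inr ⟨j, hM hj, hji, h⟩⟩

lemma Rel.mono {A M A' M' : Set ι} (hA : A ⊆ A') (hM : M ⊆ M') {g g' : ι → G}
    (h : Rel A M g g') : Rel A' M' g g' := by
  induction h with
  | refl => exact Rel.refl _
  | tail _ h2 ih => exact ih.trans (Step.mono hA hM h2).rel

lemma Step.off {A M : Set ι} {g g' : ι → G} (h : Step A M g g') {i : ι} (hi : i ∉ A) :
    g' i = g i := by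
  obtain ⟨k, hk, h | ⟨j, hj, hji, h | h⟩⟩ := h <;>
  · subst h
    rw [update_of_ne]
    rintro rfl
    exact hi hk

lemma Rel.off {A M : Set ι} {g g' : ι → G} (h : Rel A M g g') {i : ι} (hi : i ∉ A) :
    g' i = g i := by
  induction h with
  | refl => rfl
  | tail _ h2 ih => rw [h2.off hi, ih]

lemma Step.closure_le {A M : Set ι} (hAM : A ⊆ M) {g g' : ι → G} (h : Step A M g g') :
    Subgroup.closure (g' '' M) ≤ Subgroup.closure (g '' M) := by
  rw [Subgroup.closure_le]
  rintro _ ⟨k, hk, rfl⟩
  have hmem : ∀ l ∈ M, g l ∈ Subgroup.closure (g '' M) := fun l hl =>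
    Subgroup.subset_closure ⟨l, hl, rfl⟩
  obtain ⟨i, hi, h | ⟨j, hj, hji, h | h⟩⟩ := h
  · subst h
    by_cases hki : k = i
    · subst hki
      rw [update_self]
      exact inv_mem (hmem _ hk)
    · rw [update_of_ne hki]
      exact hmem _ hk
  · subst h
    by_cases hki : k = i
    · subst hki
      rw [update_self]
      exact mul_mem (hmem _ hk) (hmem _ hj)
    · rw [update_of_ne hki]
      exact hmem _ hk
  · subst h
    by_cases hki : k = i
    · subst hki
      rw [update_self]
      exact mul_mem (hmem _ hk) (inv_mem (hmem _ hj))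
    · rw [update_of_ne hki]
      exact hmem _ hk

lemma Rel.closure_eq {A M : Set ι} (hAM : A ⊆ M) {g g' : ι → G} (h : Rel A M g g') :
    Subgroup.closure (g' '' M) = Subgroup.closure (g '' M) := by
  induction h with
  | refl => rfl
  | tail _ h2 ih =>
    rw [← ih]
    exact le_antisymm (h2.closure_le hAM) (h2.symm.closure_le hAM)

lemma Step.lift {A M : Set ι} (f : G →* H) {g : ι → G} {w' : ι → H}
    (h : Step A M (fun i => f (g i)) w') :
    ∃ g', Step A M g g' ∧ (fun i => f (g' i)) = w' := by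
  have hupd : ∀ (i : ι) (z : G),
      (fun k => f (update g i z k)) = update (fun k => f (g k)) i (f z) := by
    intro i z
    funext k
    by_cases hk : k = i
    · subst hk; simp
    · simp [hk]
  obtain ⟨i, hi, h | ⟨j, hj, hji, h | h⟩⟩ := h
  · exact ⟨_, ⟨i, hi, Or.inl rfl⟩, by rw [hupd, h, map_inv]⟩
  · exact ⟨_, ⟨i, hi, Or.inr ⟨j, hj, hji, Or.inl rfl⟩⟩, by rw [hupd, h, map_mul]⟩
  · exact ⟨_, ⟨i, hi, Or.inr ⟨j, hj, hji, Or.inr rfl⟩⟩, by rw [hupd, h, map_mul, map_inv]⟩

lemma Rel.lift {A M : Set ι} (f : G →* H) {g : ι → G} {w' : ι → H}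
    (h : Rel A M (fun i => f (g i)) w') :
    ∃ g', Rel A M g g' ∧ (fun i => f (g' i)) = w' := by
  induction h with
  | refl => exact ⟨g, Rel.refl _, rfl⟩
  | tail _ h2 ih =>
    obtain ⟨g1, h3, h4⟩ := ih
    rw [← h4] at h2
    obtain ⟨g2, h5, h6⟩ := h2.lift f
    exact ⟨g2, h3.trans h5.rel, h6⟩

/-- the image of a sequence of moves -/
lemma Rel.map {A M : Set ι} (f : G →* H) {g g' : ι → G} (h : Rel A M g g') :
    Rel A M (fun i => f (g i)) (fun i => f (g' i)) := by
  have hupd : ∀ (g : ι → G) (i : ι) (z : G),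
      (fun k => f (update g i z k)) = update (fun k => f (g k)) i (f z) := by
    intro g i z
    funext k
    by_cases hk : k = i
    · subst hk; simp
    · simp [hk]
  induction h with
  | refl => exact Rel.refl _
  | tail _ h2 ih =>
    refine ih.trans (Step.rel ?_)
    obtain ⟨i, hi, h | ⟨j, hj, hji, h | h⟩⟩ := h2
    · exact ⟨i, hi, Or.inl (by rw [h, hupd, map_inv])⟩
    · exact ⟨i, hi, Or.inr ⟨j, hj, hji, Or.inl (by rw [h, hupd, map_mul])⟩⟩
    · exact ⟨i, hi, Or.inr ⟨j, hj, hji, Or.inr (by rw [h, hupd, map_mul, map_inv])⟩⟩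

lemma rel_absorb_aux {A M : Set ι} {g : ι → G} {i : ι} (hi : i ∈ A) {y : G}
    (hy : y ∈ Subgroup.closure (g '' (M \ {i}))) :
    ∀ z : G, Rel A M (update g i z) (update g i (z * y)) := by
  induction hy using Subgroup.closure_induction with
  | mem x hx =>
    intro z
    obtain ⟨j, hj, rfl⟩ := hx
    have hji : j ≠ i := fun h => hj.2 (by simpa using h)
    apply Step.rel
    refine ⟨i, hi, Or.inr ⟨j, hj.1, hji, Or.inl ?_⟩⟩
    simp [hji]
  | one =>
    intro z
    rw [mul_one]
    exact Rel.refl _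
  | mul x y _ _ hx hy =>
    intro z
    rw [← mul_assoc]
    exact (hx z).trans (hy _)
  | inv x _ hx =>
    intro z
    have := (hx (z * x⁻¹)).symm
    rwa [inv_mul_cancel_right] at this

lemma rel_inv_aux {A M : Set ι} (g : ι → G) {i : ι} (hi : i ∈ A) (z : G) :
    Rel A M (update g i z) (update g i z⁻¹) := by
  apply Step.rel
  refine ⟨i, hi, Or.inl ?_⟩
  simp

lemma rel_absorb_left_aux {A M : Set ι} {g : ι → G} {i : ι} (hi : i ∈ A) {y : G}
    (hy : y ∈ Subgroup.closure (g '' (M \ {i}))) (z : G) :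
    Rel A M (update g i z) (update g i (y * z)) := by
  have h1 := rel_inv_aux (A := A) (M := M) g hi z
  have h2 := rel_absorb_aux (A := A) (M := M) hi (inv_mem hy) z⁻¹
  have h3 := rel_inv_aux (A := A) (M := M) g hi (z⁻¹ * y⁻¹)
  have := h1.trans (h2.trans h3)
  rwa [mul_inv_rev, inv_inv, inv_inv] at this

lemma rel_absorb {A M : Set ι} {g : ι → G} {i : ι} (hi : i ∈ A) {y : G}
    (hy : y ∈ Subgroup.closure (g '' (M \ {i}))) :
    Rel A M g (update g i (g i * y)) := by
  have := rel_absorb_aux hi hy (g i)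
  rwa [update_eq_self] at this

lemma rel_absorb_left {A M : Set ι} {g : ι → G} {i : ι} (hi : i ∈ A) {y : G}
    (hy : y ∈ Subgroup.closure (g '' (M \ {i}))) :
    Rel A M g (update g i (y * g i)) := by
  have := rel_absorb_left_aux hi hy (g i)
  rwa [update_eq_self] at this

lemma rel_inv {A M : Set ι} (g : ι → G) {i : ι} (hi : i ∈ A) :
    Rel A M g (update g i (g i)⁻¹) := by
  have := rel_inv_aux (A := A) (M := M) g hi (g i)
  rwa [update_eq_self] at this

/-- changing several entries one after the other -/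
lemma rel_finset {A M : Set ι} (g F : ι → G) (s : Finset ι)
    (h : ∀ i ∈ s, ∀ g' : ι → G, (∀ j ∉ s, g' j = g j) → g' i = g i →
      Rel A M g' (update g' i (F i))) :
    Rel A M g (fun i => if i ∈ s then F i else g i) := by
  have key : ∀ t : Finset ι, t ⊆ s → Rel A M g (fun i => if i ∈ t then F i else g i) := by
    intro t
    induction t using Finset.induction_on with
    | empty =>
      intro _
      simp only [Finset.notMem_empty, if_false]
      exact Rel.refl _
    | insert i t hit ih =>
      intro hts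
      have hi : i ∈ s := hts (Finset.mem_insert_self i t)
      have ht : t ⊆ s := fun x hx => hts (Finset.mem_insert_of_mem hx)
      refine (ih ht).trans ?_
      have h1 := h i hi (fun k => if k ∈ t then F k else g k)
        (fun j hj => by
          have : j ∉ t := fun hh => hj (ht hh)
          simp [this])
        (by simp [hit])
      convert h1 using 1
      funext k
      by_cases hk : k = i
      · subst hk
        simp
      · simp [hk]
  exact key s (Finset.Subset.refl s)

end Pool.Agent.H81.Nls
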