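import Pool.Agent.H81.Nls.Code
import Pool.Agent.H81.Nls.Rel

/-!
Nielsen's theorem for generating tuples of a free group, relative to fixed letters.
-/

namespace Pool.Agent.H81.Nls

open Function FreeGroup

variable {ι : Type*} [Fintype ι] [DecidableEq ι] {α : Type*} [Fintype α] [DecidableEq α]

lemma sum_upd (f : FreeGroup α → ℕ) (w : ι → FreeGroup α) (i : ι) (z : FreeGroup α) :
    (∑ k, f (update w i z k)) + f (w i) = (∑ k, f (w k)) + f z := by
  rw [← Finset.add_sum_erase Finset.univ (fun k => f (update w i z k)) (Finset.mem_univ i),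
    ← Finset.add_sum_erase Finset.univ (fun k => f (w k)) (Finset.mem_univ i)]
  have h : ∑ k ∈ Finset.univ.erase i, f (update w i z k) =
      ∑ k ∈ Finset.univ.erase i, f (w k) := by
    apply Finset.sum_congr rfl
    intro k hk
    rw [update_of_ne (Finset.ne_of_mem_erase hk)]
  rw [h]
  simp only [update_self]
  omega

/-- minimality of a tuple with respect to one-entry changes -/
def Mini (A M : Set ι) (w : ι → FreeGroup α) : Prop :=
  ∀ i z, Rel A M w (update w i z) → FreeGroup.norm (w i) ≤ FreeGroup.norm z ∧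
    (FreeGroup.norm z = FreeGroup.norm (w i) → wt (w i) ≤ wt z)

lemma exists_mini (A M : Set ι) (w : ι → FreeGroup α) :
    ∃ w', Rel A M w w' ∧ Mini A M w' := by
  let Φ : (ι → FreeGroup α) → ℕ ×ₗ ℕ := fun v =>
    toLex (∑ k, FreeGroup.norm (v k), ∑ k, wt (v k))
  obtain ⟨w', hw', hmin⟩ := (InvImage.wf Φ (wellFounded_lt)).has_min {v | Rel A M w v}
    ⟨w, Rel.refl w⟩
  refine ⟨w', hw', ?_⟩
  intro i z hz
  have h1 := hmin (update w' i z) (Rel.trans hw' hz)
  have h2 : ¬ (Φ (update w' i z) < Φ w') := h1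
  have hs1 := sum_upd FreeGroup.norm w' i z
  have hs2 := sum_upd wt w' i z
  have h3 : ¬ ((∑ k, FreeGroup.norm (update w' i z k)) < ∑ k, FreeGroup.norm (w' k) ∨
      (∑ k, FreeGroup.norm (update w' i z k)) = ∑ k, FreeGroup.norm (w' k) ∧
        (∑ k, wt (update w' i z k)) < ∑ k, wt (w' k)) := by
    intro h
    exact h2 (Prod.Lex.toLex_lt_toLex.2 h)
  push Not at h3
  obtain ⟨h4, h5⟩ := h3
  constructor
  · omega
  · intro h6
    have := h5 (by omega)
    omega

/-- the symmetric set of a tuple -/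
def symSet (M : Set ι) (w : ι → FreeGroup α) : Set (FreeGroup α) :=
  {x | ∃ i ∈ M, w i ≠ 1 ∧ (x = w i ∨ x = (w i)⁻¹)}

lemma Mini.right {A M : Set ι} {w : ι → FreeGroup α} (h : Mini A M w) {i j : ι} (hi : i ∈ A)
    (hj : j ∈ M) (hij : i ≠ j) {x y : FreeGroup α} (hx : x = w i ∨ x = (w i)⁻¹)
    (hy : y = w j ∨ y = (w j)⁻¹) :
    FreeGroup.norm (w i) ≤ FreeGroup.norm (x * y) ∧
      (FreeGroup.norm (x * y) = FreeGroup.norm (w i) → wt (w i) ≤ wt (x * y)) := by
  have hmem : w j ∈ Subgroup.closure (w '' (M \ {i})) :=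
    Subgroup.subset_closure ⟨j, ⟨hj, fun hh => hij (by simpa using hh.symm)⟩, rfl⟩
  have hyc : y ∈ Subgroup.closure (w '' (M \ {i})) := by
    rcases hy with rfl | rfl
    · exact hmem
    · exact inv_mem hmem
  rcases hx with rfl | rfl
  · exact h i _ (rel_absorb hi hyc)
  · have h1 := h i _ (rel_absorb_left hi (inv_mem hyc))
    have e : (w i)⁻¹ * y = (y⁻¹ * w i)⁻¹ := by group
    rw [e, norm_inv_eq, wt_inv]
    exact h1

lemma Mini.left {A M : Set ι} {w : ι → FreeGroup α} (h : Mini A M w) {i j : ι} (hi : i ∈ A)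
    (hj : j ∈ M) (hij : i ≠ j) {x y : FreeGroup α} (hx : x = w i ∨ x = (w i)⁻¹)
    (hy : y = w j ∨ y = (w j)⁻¹) :
    FreeGroup.norm (w i) ≤ FreeGroup.norm (y * x) ∧
      (FreeGroup.norm (y * x) = FreeGroup.norm (w i) → wt (w i) ≤ wt (y * x)) := by
  have h1 := h.right hi hj hij (x := x⁻¹) (y := y⁻¹) (by
    rcases hx with rfl | rfl
    · exact Or.inr rfl
    · left; rw [inv_inv]) (by
    rcases hy with rfl | rfl
    · exact Or.inr rfl
    · left; rw [inv_inv])
  have e : y * x = (x⁻¹ * y⁻¹)⁻¹ := by group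
  rw [e, norm_inv_eq, wt_inv]
  exact h1

lemma symSet_norm {w : ι → FreeGroup α} {i : ι} {x : FreeGroup α}
    (hx : x = w i ∨ x = (w i)⁻¹) : FreeGroup.norm x = FreeGroup.norm (w i) := by
  rcases hx with rfl | rfl
  · rfl
  · rw [norm_inv_eq]

lemma symSet_wt {w : ι → FreeGroup α} {i : ι} {x : FreeGroup α}
    (hx : x = w i ∨ x = (w i)⁻¹) : wt x = wt (w i) := by
  rcases hx with rfl | rfl
  · rfl
  · rw [wt_inv]

lemma symSet_same {w : ι → FreeGroup α} {i : ι} {x y : FreeGroup α}
    (hx : x = w i ∨ x = (w i)⁻¹) (hy : y = w i ∨ y = (w i)⁻¹) (hxy : x * y ≠ 1) : x = y := by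
  rcases hx with rfl | rfl <;> rcases hy with rfl | rfl
  · rfl
  · simp at hxy
  · simp at hxy
  · rfl

lemma symSet_inv {w : ι → FreeGroup α} {i : ι} {x : FreeGroup α}
    (hx : x = w i ∨ x = (w i)⁻¹) : x⁻¹ = w i ∨ x⁻¹ = (w i)⁻¹ := by
  rcases hx with rfl | rfl
  · right; rfl
  · left; rw [inv_inv]

lemma mini_n1 {A M : Set ι} {w : ι → FreeGroup α} (h : Mini A M w)
    (hfix : ∀ i ∈ M, i ∉ A → FreeGroup.norm (w i) = 1) {i j : ι} (hi : i ∈ M) (hj : j ∈ M)
    {u v : FreeGroup α} (hu : u = w i ∨ u = (w i)⁻¹) (hv : v = w j ∨ v = (w j)⁻¹)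
    (hvne : w j ≠ 1) (huv : u * v ≠ 1) : 2 * gp u⁻¹ v ≤ FreeGroup.norm v := by
  by_contra hcon
  push Not at hcon
  have hn := norm_mul_eq u v
  have hun := symSet_norm hu
  have hvn := symSet_norm hv
  have hv1 : v ≠ 1 := by
    rcases hv with rfl | rfl
    · exact hvne
    · simpa using hvne
  by_cases hij : i = j
  · subst hij
    have := symSet_same hu hv huv
    subst this
    have := two_mul_gp_inv_lt hv1
    omega
  · by_cases hiA : i ∈ A
    · have := (h.right hiA hj hij hu hv).1
      omega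
    · have h1 := hfix i hi hiA
      have h2 : FreeGroup.norm (u * v) = 0 := by omega
      exact huv (norm_eq_zero.1 h2)

/-- A minimal tuple is Nielsen reduced. -/
lemma Mini.nred {A M : Set ι} {w : ι → FreeGroup α} (h : Mini A M w)
    (hfix : ∀ i ∈ M, i ∉ A → FreeGroup.norm (w i) = 1) : Nred (symSet M w) where
  one := by
    rintro ⟨i, hi, hne, h1 | h1⟩
    · exact hne h1.symm
    · exact hne (by simpa using h1)
  inv := by
    rintro u ⟨i, hi, hne, hu⟩
    exact ⟨i, hi, hne, symSet_inv hu⟩
  n1 := by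
    rintro u ⟨i, hi, hine, hu⟩ v ⟨j, hj, hjne, hv⟩ huv
    exact mini_n1 h hfix hi hj hu hv hjne huv
  n2 := by
    rintro u ⟨i, hi, hine, hu⟩ v ⟨j, hj, hjne, hv⟩ w' ⟨k, hk, hkne, hw⟩ huv hvw
    have hv1 : v ≠ 1 := by
      rcases hv with rfl | rfl
      · exact hjne
      · simpa using hjne
    have hstr := two_mul_gp_inv_lt hv1
    have a1 := mini_n1 h hfix hi hj hu hv hjne huv
    have a2 : 2 * gp v⁻¹ w' ≤ FreeGroup.norm v := by
      have := mini_n1 h hfix hk hj (symSet_inv hw) (symSet_inv hv) hjne (by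
        intro hh
        apply hvw
        have h2 := congrArg (fun z => z⁻¹) hh
        simpa using h2)
      rw [inv_inv, norm_inv_eq, gp_comm] at this
      exact this
    have a3 : 2 * gp v⁻¹ w' ≤ FreeGroup.norm w' := mini_n1 h hfix hj hk hv hw hkne hvw
    have a4 : 2 * gp u⁻¹ v ≤ FreeGroup.norm u := by
      have := mini_n1 h hfix hj hi (symSet_inv hv) (symSet_inv hu) hine (by
        intro hh
        apply huv
        have h2 := congrArg (fun z => z⁻¹) hh
        simpa using h2)
      rw [inv_inv, norm_inv_eq, gp_comm] at this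
      exact this
    by_contra hcon
    push Not at hcon
    have hun := symSet_norm hu
    have hvn := symSet_norm hv
    have hwn := symSet_norm hw
    set hh := gp u⁻¹ v with hhdef
    have b1 : gp v⁻¹ w' = hh := by omega
    have b2 : FreeGroup.norm v = 2 * hh := by omega
    have hpos : 0 < hh := by omega
    have hij : i ≠ j := by
      rintro rfl
      have := symSet_same hu hv huv
      subst this
      omega
    have hkj : k ≠ j := by
      rintro rfl
      have := symSet_same hv hw hvw
      subst this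
      omega
    have hiA : i ∈ A := by
      by_contra hiA
      have := hfix i hi hiA
      omega
    have hkA : k ∈ A := by
      by_contra hkA
      have := hfix k hk hkA
      omega
    have hlen : v.toWord.length = 2 * hh := b2
    have hlen' : (v⁻¹).toWord.length = 2 * hh := by
      have : (v⁻¹).toWord.length = FreeGroup.norm v⁻¹ := rfl
      rw [this, norm_inv_eq, b2]
    have hne : code (v.toWord.take hh) ≠ code ((v⁻¹).toWord.take hh) := by
      intro heq
      have h1 := code_inj (by rw [List.length_take, List.length_take, hlen, hlen']) heq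
      have h2 : hh ≤ gp v⁻¹ v := by
        unfold gp
        apply le_cpl_of_take
        · omega
        · omega
        · exact h1.symm
      omega
    rcases lt_or_gt_of_ne hne with hlt | hlt
    · have hs := swap_lt b2 b1 (by omega) hlt
      have hd := (h.left hkA hj hkj hw hv).2 (by omega)
      rw [← symSet_wt hw] at hd
      omega
    · have hs := swap_lt (v := v⁻¹) (w := u⁻¹) (h := hh) (by rw [norm_inv_eq, b2])
        (by rw [inv_inv, gp_comm]) (by rw [norm_inv_eq]; omega) (by rw [inv_inv]; exact hlt)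
      have e : v⁻¹ * u⁻¹ = (u * v)⁻¹ := by group
      rw [e, norm_inv_eq, wt_inv, norm_inv_eq, wt_inv] at hs
      have hd := (h.right hiA hj hij hu hv).2 (by omega)
      rw [← symSet_wt hu] at hd
      omega

lemma closure_symSet (M : Set ι) (w : ι → FreeGroup α) :
    Subgroup.closure (w '' M) ≤ Subgroup.closure (symSet M w) := by
  rw [Subgroup.closure_le]
  rintro _ ⟨i, hi, rfl⟩
  by_cases h : w i = 1
  · rw [h]
    exact one_mem _
  · exact Subgroup.subset_closure ⟨i, hi, h, Or.inl rfl⟩

/-- first letter of a nontrivial element -/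
lemma exists_first {x : FreeGroup α} (hx : x ≠ 1) :
    ∃ (a : α) (c : FreeGroup α), (c = of a ∨ c = (of a)⁻¹) ∧
      FreeGroup.norm (c⁻¹ * x) + 1 = FreeGroup.norm x := by
  cases hL : x.toWord with
  | nil => exact absurd (toWord_eq_nil_iff.1 hL) hx
  | cons p l =>
    obtain ⟨a, b⟩ := p
    have hc : ∀ c : FreeGroup α, c.toWord = [(a, b)] →
        FreeGroup.norm (c⁻¹ * x) + 1 = FreeGroup.norm x := by
      intro c hcw
      have h1 := norm_inv_mul c x
      have h2 : gp c x = 1 := by
        unfold gp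
        rw [hcw, hL]
        simp [cpl]
      have h3 : FreeGroup.norm c = 1 := by
        unfold FreeGroup.norm
        rw [hcw]
        rfl
      omega
    cases b with
    | true => exact ⟨a, of a, Or.inl rfl, hc _ (toWord_of a)⟩
    | false =>
      refine ⟨a, (of a)⁻¹, Or.inr rfl, hc _ ?_⟩
      rw [toWord_inv, toWord_of]
      rfl

lemma norm_letter {a : α} {c : FreeGroup α} (hc : c = of a ∨ c = (of a)⁻¹) :
    FreeGroup.norm c = 1 := by
  rcases hc with rfl | rfl
  · exact norm_of a
  · rw [norm_inv_eq, norm_of]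

/-- **Relative Nielsen theorem.** A tuple in a free group whose entries in `M` generate, those
outside `A` being letters, can be changed by moves of the entries in `A` so that the letters
appear and all other entries in `A` are trivial. -/
theorem rel_nielsen {A M : Set ι} (hAM : A ⊆ M) (w : ι → FreeGroup α)
    (hfix : ∀ i ∈ M, i ∉ A → ∃ a, w i = of a)
    (hgen : Subgroup.closure (w '' M) = ⊤) :
    ∃ (w' : ι → FreeGroup α) (e : α → ι), Rel A M w w' ∧ (∀ a, e a ∈ M) ∧
      (∀ a, w' (e a) = of a) ∧ (∀ i ∈ A, (∀ a, i ≠ e a) → w' i = 1) ∧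
      ∀ i ∈ M, i ∉ A → ∀ a, w i = of a → e a ∉ A := by
  obtain ⟨w1, hw1, hmin⟩ := exists_mini A M w
  have hfix1 : ∀ i ∈ M, i ∉ A → ∃ a, w1 i = of a := by
    intro i hi hiA
    rw [hw1.off hiA]
    exact hfix i hi hiA
  have hnfix : ∀ i ∈ M, i ∉ A → FreeGroup.norm (w1 i) = 1 := by
    intro i hi hiA
    obtain ⟨a, ha⟩ := hfix1 i hi hiA
    rw [ha, norm_of]
  have hred := hmin.nred hnfix
  have hgen1 : Subgroup.closure (symSet M w1) = ⊤ := by
    rw [eq_top_iff, ← hgen, ← hw1.closure_eq hAM]
    exact closure_symSet M w1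
  have hlet : ∀ a : α, ∃ i ∈ M, w1 i = of a ∨ w1 i = (of a)⁻¹ := by
    intro a
    obtain ⟨i, hi, hne, h1⟩ := hred.mem_of_norm_one (x := of a) (by rw [hgen1]; trivial)
      (norm_of a)
    refine ⟨i, hi, ?_⟩
    rcases h1 with h1 | h1
    · exact Or.inl h1.symm
    · right
      rw [h1, inv_inv]
  choose e heM he using hlet
  -- other active entries are trivial
  have hother : ∀ i ∈ A, (∀ a, i ≠ e a) → w1 i = 1 := by
    intro i hi hne
    by_contra hcon
    obtain ⟨a, c, hc, hn⟩ := exists_first hcon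
    have hc' : c⁻¹ = w1 (e a) ∨ c⁻¹ = (w1 (e a))⁻¹ := by
      rcases hc with rfl | rfl <;> rcases he a with h1 | h1
      · right; rw [h1]
      · left; rw [h1]
      · left; rw [h1, inv_inv]
      · right; rw [h1]
    have := (hmin.left hi (heM a) (hne a) (x := w1 i) (y := c⁻¹) (Or.inl rfl) hc').1
    omega
  have hact : ∀ i ∈ M, i ∉ A → ∀ a, w i = of a → e a ∉ A := by
    intro i hi hiA a hia heA
    have hw1i : w1 i = of a := by rw [hw1.off hiA]; exact hia
    have hne : e a ≠ i := by
      rintro rfl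
      exact hiA heA
    rcases he a with h1 | h1
    · have := (hmin.right heA hi hne (x := w1 (e a)) (y := (w1 i)⁻¹) (Or.inl rfl)
        (Or.inr rfl)).1
      rw [h1, hw1i, mul_inv_cancel, FreeGroup.norm_one, norm_of] at this
      omega
    · have := (hmin.right heA hi hne (x := w1 (e a)) (y := w1 i) (Or.inl rfl)
        (Or.inl rfl)).1
      rw [h1, hw1i, inv_mul_cancel, FreeGroup.norm_one, norm_inv_eq, norm_of] at this
      omega
  -- correct the signs
  classical
  let s : Finset ι := Finset.univ.filter (fun i => i ∈ A ∧ ∃ a, w1 i = (of a)⁻¹)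
  have hrel := rel_finset (A := A) (M := M) w1 (fun i => (w1 i)⁻¹) s (by
    intro i hi g' _ hg'
    have hiA : i ∈ A := (Finset.mem_filter.1 hi).2.1
    rw [← hg']
    exact rel_inv g' hiA)
  refine ⟨_, e, hw1.trans hrel, heM, ?_, ?_, hact⟩
  · intro a
    by_cases hs : e a ∈ s
    · rw [if_pos hs]
      obtain ⟨b, hb⟩ := (Finset.mem_filter.1 hs).2.2
      rcases he a with h1 | h1
      · exfalso
        rw [h1] at hb
        have h2 := congrArg FreeGroup.toWord hb
        rw [toWord_inv, toWord_of, toWord_of] at h2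
        simp [invRev] at h2
      · rw [h1, inv_inv]
    · rw [if_neg hs]
      rcases he a with h1 | h1
      · exact h1
      · exfalso
        by_cases hA : e a ∈ A
        · apply hs
          rw [Finset.mem_filter]
          exact ⟨Finset.mem_univ _, hA, a, h1⟩
        · obtain ⟨b, hb⟩ := hfix1 (e a) (heM a) hA
          rw [h1] at hb
          have h2 := congrArg FreeGroup.toWord hb
          rw [toWord_inv, toWord_of, toWord_of] at h2
          simp [invRev] at h2
  · intro i hi hne
    have h1 := hother i hi hne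
    simp [h1]

end Pool.Agent.H81.Nls
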