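import Pool.Agent.H81.Nls.Final

/-!
Tuples in normal form.
-/

namespace Pool.Agent.H81.Nls

open Function FreeGroup

variable {ι : Type*} [Fintype ι] [DecidableEq ι] {α γ : Type*} [Fintype α] [DecidableEq α]
  [Fintype γ] [DecidableEq γ]

/-- The entries outside `D` with trivial first coordinate normally generate the second factor. -/
lemma normal_top (g : ι → FreeGroup α × FreeGroup γ) (u : α → FreeGroup α)
    (hu : Subgroup.closure (Set.range u) = ⊤) (k : α → ι) (v : α → FreeGroup γ)
    (hk : ∀ a, g (k a) = (u a, v a)) (hone : ∀ i, i ∉ Set.range k → (g i).1 = 1)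
    (D : Finset ι) (hD : Subgroup.closure (g '' {i | i ∉ D}) = ⊤)
    (N : Subgroup (FreeGroup γ)) (hN : N.Normal)
    (hb : ∀ i, i ∉ Set.range k → i ∉ D → (g i).2 ∈ N) : N = ⊤ := by
  obtain ⟨φ, hφ⟩ := basis_aut u hu
  -- the graph homomorphism
  let th : FreeGroup α →* FreeGroup γ ⧸ N := FreeGroup.lift (fun a => (QuotientGroup.mk (v a)))
  let f : FreeGroup α × FreeGroup γ →* FreeGroup γ ⧸ N := (QuotientGroup.mk' N).comp
    (MonoidHom.snd (FreeGroup α) (FreeGroup γ))
  let h1 : FreeGroup α × FreeGroup γ →* FreeGroup γ ⧸ N := (th.comp φ.symm.toMonoidHom).comp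
    (MonoidHom.fst (FreeGroup α) (FreeGroup γ))
  have heq : ∀ x, f x = h1 x := by
    intro x
    have hx : x ∈ Subgroup.closure (g '' {i | i ∉ D}) := by rw [hD]; trivial
    have hle : Subgroup.closure (g '' {i | i ∉ D}) ≤ MonoidHom.eqLocus f h1 := by
      rw [Subgroup.closure_le]
      rintro _ ⟨i, hi, rfl⟩
      show f (g i) = h1 (g i)
      by_cases hik : i ∈ Set.range k
      · obtain ⟨a, rfl⟩ := hik
        rw [hk]
        show (QuotientGroup.mk (v a) : FreeGroup γ ⧸ N) = th (φ.symm (u a))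
        rw [← hφ a, MulEquiv.symm_apply_apply]
        simp [th]
      · have e1 : f (g i) = 1 := by
          show (QuotientGroup.mk (g i).2 : FreeGroup γ ⧸ N) = 1
          exact (QuotientGroup.eq_one_iff _).2 (hb i hik hi)
        have e2 : h1 (g i) = 1 := by
          show th (φ.symm (g i).1) = 1
          rw [hone i hik, _root_.map_one, _root_.map_one]
        rw [e1, e2]
    exact hle hx
  rw [eq_top_iff]
  intro z _
  have h2 := heq (1, z)
  have e1 : f (1, z) = (QuotientGroup.mk z : FreeGroup γ ⧸ N) := rfl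
  have e2 : h1 (1, z) = 1 := by
    show th (φ.symm 1) = 1
    rw [_root_.map_one, _root_.map_one]
  rw [e1, e2] at h2
  exact (QuotientGroup.eq_one_iff _).1 h2

/-- clearing the second coordinates outside `S` -/
lemma clear (g : ι → FreeGroup α × FreeGroup γ) (u : α → FreeGroup α)
    (hu : Subgroup.closure (Set.range u) = ⊤) (k : α → ι) (v : α → FreeGroup γ)
    (hk : ∀ a, g (k a) = (u a, v a)) (hone : ∀ i, i ∉ Set.range k → (g i).1 = 1)
    (D : Finset ι) (hD : Subgroup.closure (g '' {i | i ∉ D}) = ⊤) (hkD : ∀ a, k a ∉ D)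
    (S : Finset α)
    (hS : Subgroup.closure (v '' {a | a ∈ S} ∪
      (fun i => (g i).2) '' {i | i ∉ Set.range k ∧ i ∉ D}) = ⊤) :
    ∃ g' : ι → FreeGroup α × FreeGroup γ, Rel {i | i ∉ D} {i | i ∉ D} g g' ∧
      (∀ a ∈ S, g' (k a) = (u a, v a)) ∧ (∀ a, a ∉ S → g' (k a) = (u a, 1)) := by
  classical
  obtain ⟨φ, hφ⟩ := basis_aut u hu
  have hkinj : Injective k := by
    intro a b hab
    have h1 := hk a
    rw [hab, hk b] at h1
    have h2 := congrArg Prod.fst h1
    simp only at h2
    rw [← hφ, ← hφ] at h2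
    exact (of_injective (φ.injective h2)).symm
  let T : Finset ι := (Finset.univ.filter (fun a => a ∉ S)).image k
  have hTmem : ∀ a, k a ∈ T ↔ a ∉ S := by
    intro a
    constructor
    · intro h
      obtain ⟨b, hb, hbk⟩ := Finset.mem_image.1 h
      rw [← hkinj hbk]
      exact (Finset.mem_filter.1 hb).2
    · intro h
      exact Finset.mem_image.2 ⟨a, Finset.mem_filter.2 ⟨Finset.mem_univ _, h⟩, rfl⟩
  have hTD : ∀ i ∈ T, i ∉ D := by
    intro i hi
    obtain ⟨b, -, rfl⟩ := Finset.mem_image.1 hi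
    exact hkD b
  -- entries outside T and D generate a subgroup containing 1 × F
  let L : Subgroup (FreeGroup α × FreeGroup γ) := Subgroup.closure (g '' {i | i ∉ D ∧ i ∉ T})
  have hL2 : ∀ y : FreeGroup γ, ∃ x, (x, y) ∈ L := by
    have h1 : Subgroup.map (MonoidHom.snd (FreeGroup α) (FreeGroup γ)) L = ⊤ := by
      rw [eq_top_iff, ← hS, Subgroup.closure_le]
      rintro y (⟨a, ha, rfl⟩ | ⟨i, hi, rfl⟩)
      · refine ⟨g (k a), Subgroup.subset_closure ⟨k a, ⟨hkD a, ?_⟩, rfl⟩, ?_⟩
        · rw [hTmem]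
          exact fun h => h ha
        · rw [hk]; rfl
      · refine ⟨g i, Subgroup.subset_closure ⟨i, ⟨hi.2, ?_⟩, rfl⟩, rfl⟩
        intro h
        obtain ⟨b, -, hbk⟩ := Finset.mem_image.1 h
        exact hi.1 ⟨b, hbk⟩
    intro y
    have : y ∈ Subgroup.map (MonoidHom.snd (FreeGroup α) (FreeGroup γ)) L := by
      rw [h1]; trivial
    obtain ⟨⟨x, y'⟩, hx, hy⟩ := this
    have hy' : y' = y := hy
    subst hy'
    exact ⟨x, hx⟩
  let N : Subgroup (FreeGroup γ) := L.comap (MonoidHom.inr (FreeGroup α) (FreeGroup γ))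
  have hNmem : ∀ y, y ∈ N ↔ ((1, y) : FreeGroup α × FreeGroup γ) ∈ L := fun y => Iff.rfl
  have hNn : N.Normal := by
    constructor
    intro n hn z
    rw [hNmem] at hn ⊢
    obtain ⟨x, hx⟩ := hL2 z
    have h1 := mul_mem (mul_mem hx hn) (inv_mem hx)
    have h2 : (x, z) * (1, n) * (x, z)⁻¹ = ((1, z * n * z⁻¹) : FreeGroup α × FreeGroup γ) := by
      apply Prod.ext
      · show x * 1 * x⁻¹ = 1
        simp
      · rfl
    rwa [h2] at h1
  have hNtop : N = ⊤ := by
    apply normal_top g u hu k v hk hone D hD N hNn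
    intro i hi hiD
    rw [hNmem]
    have : ((1, (g i).2) : FreeGroup α × FreeGroup γ) = g i := by
      apply Prod.ext
      · exact (hone i hi).symm
      · rfl
    rw [this]
    refine Subgroup.subset_closure ⟨i, ⟨hiD, ?_⟩, rfl⟩
    intro h
    obtain ⟨b, -, hbk⟩ := Finset.mem_image.1 h
    exact hi ⟨b, hbk⟩
  have hrel := rel_finset (A := {i | i ∉ D}) (M := {i | i ∉ D}) g
    (fun i => ((g i).1, 1)) T (by
      intro i hi g' hoff hgi
      have h1 : g' '' {i | i ∉ D ∧ i ∉ T} = g '' {i | i ∉ D ∧ i ∉ T} := by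
        apply Set.image_congr
        intro j hj
        exact hoff j hj.2
      have h2 : ((1, (g i).2⁻¹) : FreeGroup α × FreeGroup γ) ∈
          Subgroup.closure (g' '' ({i | i ∉ D} \ {i})) := by
        have h3 : Subgroup.closure (g' '' {i | i ∉ D ∧ i ∉ T}) ≤
            Subgroup.closure (g' '' ({i | i ∉ D} \ {i})) := by
          apply Subgroup.closure_mono
          apply Set.image_mono
          intro j hj
          refine ⟨hj.1, fun h => hj.2 ?_⟩
          rw [Set.mem_singleton_iff.1 h]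
          exact hi
        rw [h1] at h3
        apply h3
        have : (g i).2⁻¹ ∈ N := by rw [hNtop]; trivial
        exact this
      have h4 := rel_absorb (A := {i | i ∉ D}) (M := {i | i ∉ D}) (g := g') (hTD i hi) h2
      convert h4 using 2
      rw [hgi]
      apply Prod.ext
      · show (g i).1 = (g i).1 * 1
        rw [mul_one]
      · show 1 = (g i).2 * (g i).2⁻¹
        rw [mul_inv_cancel])
  refine ⟨_, hrel, ?_, ?_⟩
  · intro a ha
    have : k a ∉ T := by
      rw [hTmem]
      exact fun h => h ha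
    rw [if_neg this, hk]
  · intro a ha
    have : k a ∈ T := (hTmem a).2 ha
    rw [if_pos this, hk]

/-- Tuples in normal form. -/
theorem final_normal (p q : ℕ) (hp : 0 < p) {ι : Type*} [Fintype ι] [DecidableEq ι]
    (g : ι → FreeGroup (Fin p) × FreeGroup (Fin q))
    (u : Fin p → FreeGroup (Fin p)) (hu : Subgroup.closure (Set.range u) = ⊤)
    (k : Fin p → ι) (v : Fin p → FreeGroup (Fin q))
    (hk : ∀ a, g (k a) = (u a, v a)) (hone : ∀ i, i ∉ Set.range k → (g i).1 = 1)
    (D : Finset ι) (hD : Subgroup.closure (g '' {i | i ∉ D}) = ⊤) (hkD : ∀ a, k a ∉ D)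
    (S : Finset (Fin p))
    (hS : Subgroup.closure (v '' {a | a ∈ S} ∪
      (fun i => (g i).2) '' {i | i ∉ Set.range k ∧ i ∉ D}) = ⊤)
    (hcard : S.card ≤ D.card + 1 ∨ ∃ c : FreeGroup (Fin q), ∀ a ∈ S, v a ∈ Subgroup.zpowers c)
    (E : Fin p ⊕ Fin q ↪ ι) : Nielsen (stdTuple E) g := by
  classical
  obtain ⟨g', hrel, h1, h2⟩ := clear g u hu k v hk hone D hD hkD S hS
  have hD' : Subgroup.closure (g' '' {i | i ∉ D}) = ⊤ := by
    rw [hrel.closure_eq (Set.Subset.refl _), hD]
  have hfin : Nielsen (stdTuple E) g' := by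
    rcases hcard with hc | ⟨c, hc⟩
    · apply final_left p q hp g' u hu (Finset.univ \ S) D 1 0 hD'
      · intro a ha
        have haS : a ∉ S := (Finset.mem_sdiff.1 ha).2
        exact ⟨k a, hkD a, by rw [h2 a haS]; simp⟩
      · right
        constructor
        · rw [Finset.card_univ_diff, Fintype.card_fin]
          omega
        · simp
    · choose! m hm using fun a (ha : a ∈ S) => Subgroup.mem_zpowers_iff.1 (hc a ha)
      apply final_left p q hp g' u hu Finset.univ D c (fun a => if a ∈ S then m a else 0) hD'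
      · intro a _
        refine ⟨k a, hkD a, ?_⟩
        by_cases ha : a ∈ S
        · rw [h1 a ha]
          simp only [if_pos ha]
          rw [hm a ha]
        · rw [h2 a ha]
          simp [ha]
      · left
        simp
  exact Relation.ReflTransGen.trans hfin (rel_nielsen_move hrel.symm)

end Pool.Agent.H81.Nls
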