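import Pool.Agent.H81.Nls.Niel
import Pool.Agent.H81.Nls.Euc

/-!
Generating tuples of a product of two free groups which contain all but one of the letters of
the first factor.
-/

namespace Pool.Agent.H81.Nls

open Function FreeGroup

variable {ι : Type*} [Fintype ι] [DecidableEq ι] {α γ : Type*} [Fintype α] [DecidableEq α]
  [Fintype γ] [DecidableEq γ]

/-- exponent sum of the letter `a0` -/
noncomputable def expSum (a0 : α) : FreeGroup α →* Multiplicative ℤ :=
  FreeGroup.lift (fun a => if a = a0 then Multiplicative.ofAdd 1 else 1)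

lemma expSum_self (a0 : α) : expSum a0 (of a0) = Multiplicative.ofAdd 1 := by
  simp [expSum]

lemma expSum_zpow (a0 : α) (n : ℤ) :
    expSum a0 (of a0 ^ n) = Multiplicative.ofAdd n := by
  rw [map_zpow, expSum_self]
  rw [← ofAdd_zsmul]
  simp

theorem prod_std (a0 : α) (g : ι → FreeGroup α × FreeGroup γ)
    (hgen : Subgroup.closure (Set.range g) = ⊤)
    (hk : ∀ a, a ≠ a0 → ∃ i, g i = (of a, 1)) :
    ∃ (g' : ι → FreeGroup α × FreeGroup γ) (E1 : α → ι) (E2 : γ → ι),
      Rel Set.univ Set.univ g g' ∧ (∀ a, g' (E1 a) = (of a, 1)) ∧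
      (∀ c, g' (E2 c) = (1, of c)) ∧
      ∀ i, (∀ a, i ≠ E1 a) → (∀ c, i ≠ E2 c) → g' i = 1 := by
  classical
  choose k hk using hk
  let A : Set ι := {i | ∀ a (ha : a ≠ a0), i ≠ k a ha}
  have hnA : ∀ i, i ∉ A → ∃ a, ∃ ha : a ≠ a0, i = k a ha := by
    intro i hi
    by_contra hcon
    push Not at hcon
    exact hi hcon
  -- Step 1
  have hgen1 : Subgroup.closure ((fun i => (g i).1) '' Set.univ) = ⊤ := by
    rw [Set.image_univ]
    have : Set.range (fun i => (g i).1) =
        (MonoidHom.fst (FreeGroup α) (FreeGroup γ)) '' Set.range g := by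
      rw [← Set.range_comp]; rfl
    rw [this, ← MonoidHom.map_closure, hgen]
    exact Subgroup.map_top_of_surjective _ Prod.fst_surjective
  obtain ⟨w', e, hrel1, -, he, hother, hact⟩ := rel_nielsen (A := A) (M := Set.univ)
    (Set.subset_univ _) (fun i => (g i).1) (by
      intro i _ hi
      obtain ⟨a, ha, rfl⟩ := hnA i hi
      exact ⟨a, by rw [hk]⟩) hgen1
  obtain ⟨g1, hg1, hg1w⟩ := Rel.lift (MonoidHom.fst (FreeGroup α) (FreeGroup γ)) hrel1
  have hg1w' : ∀ i, (g1 i).1 = w' i := fun i => congrFun hg1w i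
  have hg1k : ∀ a (ha : a ≠ a0), g1 (k a ha) = (of a, 1) := by
    intro a ha
    rw [hg1.off (fun h => h a ha rfl), hk]
  have hea0 : e a0 ∈ A := by
    intro a ha heq
    have h1 := he a0
    rw [heq, ← hg1w', hg1k] at h1
    exact ha (of_injective h1)
  have hek : ∀ a (ha : a ≠ a0), e a = k a ha := by
    intro a ha
    have h1 := hact (k a ha) trivial (fun h => h a ha rfl) a (by simp only [hk])
    obtain ⟨b, hb, hb2⟩ := hnA _ h1
    have h2 := he a
    rw [hb2, ← hg1w', hg1k] at h2
    have : b = a := of_injective h2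
    subst this
    exact hb2
  have hA1 : ∀ i ∈ A, i ≠ e a0 → (g1 i).1 = 1 := by
    intro i hi hne
    rw [hg1w']
    apply hother i hi
    intro a
    by_cases ha : a = a0
    · rw [ha]; exact hne
    · rw [hek a ha]; exact hi a ha
  have hA0 : (g1 (e a0)).1 = of a0 := by rw [hg1w', he]
  -- Step 2
  let T : Subgroup (FreeGroup α × FreeGroup γ) := Subgroup.closure (g1 '' A)
  let rho : FreeGroup α →* FreeGroup α :=
    FreeGroup.lift (fun a => if a = a0 then of a0 else 1)
  let P : FreeGroup α × FreeGroup γ →* FreeGroup α × FreeGroup γ :=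
    MonoidHom.prodMap rho (MonoidHom.id _)
  have hgen2 : Subgroup.closure (Set.range g1) = ⊤ := by
    have := hg1.closure_eq (Set.subset_univ _)
    rw [Set.image_univ, Set.image_univ] at this
    rw [this, hgen]
  have hPT : ∀ x, P x ∈ T := by
    intro x
    have hx : x ∈ Subgroup.closure (Set.range g1) := by rw [hgen2]; trivial
    have h1 : Subgroup.closure (Set.range g1) ≤ T.comap P := by
      rw [Subgroup.closure_le]
      rintro _ ⟨i, rfl⟩
      show P (g1 i) ∈ T
      by_cases hi : i ∈ A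
      · have : P (g1 i) = g1 i := by
          apply Prod.ext
          · show rho (g1 i).1 = (g1 i).1
            by_cases hne : i = e a0
            · rw [hne, hA0]; simp [rho]
            · rw [hA1 i hi hne, _root_.map_one]
          · rfl
        rw [this]
        exact Subgroup.subset_closure ⟨i, hi, rfl⟩
      · obtain ⟨a, ha, rfl⟩ := hnA i hi
        rw [hg1k]
        have : P (of a, (1 : FreeGroup γ)) = 1 := by
          apply Prod.ext
          · show rho (of a) = 1
            simp [rho, ha]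
          · rfl
        rw [this]
        exact one_mem _
    exact h1 hx
  have hT0 : ((of a0, 1) : FreeGroup α × FreeGroup γ) ∈ T := by
    have := hPT (of a0, 1)
    have h2 : P (of a0, (1 : FreeGroup γ)) = (of a0, 1) := by
      apply Prod.ext
      · show rho (of a0) = of a0
        simp [rho]
      · rfl
    rwa [h2] at this
  have hTz : ∀ x ∈ T, x.1 ∈ Subgroup.zpowers (of a0 : FreeGroup α) := by
    have h1 : T ≤ (Subgroup.zpowers (of a0 : FreeGroup α)).comap
        (MonoidHom.fst (FreeGroup α) (FreeGroup γ)) := by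
      rw [Subgroup.closure_le]
      rintro _ ⟨i, hi, rfl⟩
      show (g1 i).1 ∈ Subgroup.zpowers (of a0 : FreeGroup α)
      by_cases hne : i = e a0
      · rw [hne, hA0]; exact Subgroup.mem_zpowers _
      · rw [hA1 i hi hne]; exact one_mem _
    exact fun x hx => h1 hx
  -- Step 3
  have hgen3 : Subgroup.closure ((fun i => (g1 i).2) '' A) = ⊤ := by
    have h1 : (fun i => (g1 i).2) '' A =
        (MonoidHom.snd (FreeGroup α) (FreeGroup γ)) '' (g1 '' A) := by
      rw [Set.image_image]; rfl
    rw [h1, ← MonoidHom.map_closure, eq_top_iff]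
    intro v _
    refine ⟨P (1, v), hPT _, rfl⟩
  obtain ⟨w2, e2, hrel2, he2A, he2, hother2, -⟩ := rel_nielsen (A := A) (M := A)
    (Set.Subset.refl _) (fun i => (g1 i).2) (fun i hi hi' => absurd hi hi') hgen3
  obtain ⟨g2, hg2, hg2w⟩ := Rel.lift (MonoidHom.snd (FreeGroup α) (FreeGroup γ)) hrel2
  have hg2w' : ∀ i, (g2 i).2 = w2 i := fun i => congrFun hg2w i
  have hT2 : Subgroup.closure (g2 '' A) = T := hg2.closure_eq (Set.Subset.refl _)
  -- Step 4
  let R : Set ι := {i | i ∈ A ∧ ∀ c, i ≠ e2 c}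
  have hRA : R ⊆ A := fun i hi => hi.1
  let s : FreeGroup α × FreeGroup γ →* Multiplicative ℤ :=
    (expSum a0).comp (MonoidHom.fst (FreeGroup α) (FreeGroup γ))
  obtain ⟨g3, hg3, hg3s⟩ := euclid R s g2
  have hT3 : Subgroup.closure (g3 '' A) = T := by
    rw [← hT2]
    exact (hg3.mono hRA hRA).closure_eq (Set.Subset.refl _)
  have hg3mem : ∀ i ∈ A, g3 i ∈ T := by
    intro i hi
    rw [← hT3]
    exact Subgroup.subset_closure ⟨i, hi, rfl⟩
  have hg3e : ∀ c, g3 (e2 c) = g2 (e2 c) := fun c => hg3.off (fun h => h.2 c rfl)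
  have hg3R : ∀ i ∈ R, (g3 i).2 = 1 := by
    have h1 : Subgroup.closure (g3 '' R) ≤
        (⊥ : Subgroup (FreeGroup γ)).comap (MonoidHom.snd (FreeGroup α) (FreeGroup γ)) := by
      rw [hg3.closure_eq (Set.Subset.refl _), Subgroup.closure_le]
      rintro _ ⟨i, hi, rfl⟩
      show (g2 i).2 ∈ (⊥ : Subgroup (FreeGroup γ))
      rw [hg2w', hother2 i hi.1 hi.2]
      exact one_mem _
    intro i hi
    have := h1 (Subgroup.subset_closure ⟨i, hi, rfl⟩)
    exact Subgroup.mem_bot.1 this
  have hpow : ∀ i ∈ A, (g3 i).1 = of a0 ^ (Multiplicative.toAdd (s (g3 i))) := by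
    intro i hi
    obtain ⟨n, hn⟩ := Subgroup.mem_zpowers_iff.1 (hTz _ (hg3mem i hi))
    have : s (g3 i) = Multiplicative.ofAdd n := by
      show expSum a0 (g3 i).1 = _
      rw [← hn, expSum_zpow]
    rw [this, toAdd_ofAdd, hn]
  let th : FreeGroup γ →* Multiplicative ℤ := FreeGroup.lift (fun c => s (g3 (e2 c)))
  let nu : FreeGroup α × FreeGroup γ →* Multiplicative ℤ :=
    s * (th.comp (MonoidHom.snd (FreeGroup α) (FreeGroup γ)))⁻¹
  have hnu : ∀ x, nu x = s x * (th x.2)⁻¹ := fun x => rfl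
  have hnue : ∀ c, nu (g3 (e2 c)) = 1 := by
    intro c
    rw [hnu]
    have : (g3 (e2 c)).2 = of c := by rw [hg3e, hg2w', he2]
    rw [this]
    simp [th]
  have hnuR : ∀ i ∈ R, nu (g3 i) = s (g3 i) := by
    intro i hi
    rw [hnu, hg3R i hi, _root_.map_one, inv_one, mul_one]
  have hnu0 : nu (of a0, 1) = Multiplicative.ofAdd 1 := by
    rw [hnu, _root_.map_one, inv_one, mul_one]
    exact expSum_self a0
  have hex : ∃ i1 ∈ R, (s (g3 i1) = Multiplicative.ofAdd 1 ∨
      s (g3 i1) = Multiplicative.ofAdd (-1)) ∧ ∀ i ∈ R, i ≠ i1 → s (g3 i) = 1 := by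
    have hne : ∃ i1 ∈ R, s (g3 i1) ≠ 1 := by
      by_contra hcon
      push Not at hcon
      have h1 : T ≤ (⊥ : Subgroup (Multiplicative ℤ)).comap nu := by
        rw [← hT3, Subgroup.closure_le]
        rintro _ ⟨i, hi, rfl⟩
        show nu (g3 i) ∈ (⊥ : Subgroup (Multiplicative ℤ))
        rw [Subgroup.mem_bot]
        by_cases hiR : i ∈ R
        · rw [hnuR i hiR, hcon i hiR]
        · have : ∃ c, i = e2 c := by
            by_contra h
            push Not at h
            exact hiR ⟨hi, h⟩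
          obtain ⟨c, rfl⟩ := this
          exact hnue c
      have h2 := h1 hT0
      have h3 : nu (of a0, 1) = 1 := Subgroup.mem_bot.1 h2
      rw [hnu0] at h3
      have := congrArg Multiplicative.toAdd h3
      simp at this
    obtain ⟨i1, hi1, hi1s⟩ := hne
    have huniq : ∀ i ∈ R, i ≠ i1 → s (g3 i) = 1 := by
      intro i hi hne
      rcases hg3s i hi i1 hi1 hne with h | h
      · exact h
      · exact absurd h hi1s
    refine ⟨i1, hi1, ?_, huniq⟩
    have h1 : T ≤ (Subgroup.zpowers (s (g3 i1))).comap nu := by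
      rw [← hT3, Subgroup.closure_le]
      rintro _ ⟨i, hi, rfl⟩
      show nu (g3 i) ∈ Subgroup.zpowers (s (g3 i1))
      by_cases hiR : i ∈ R
      · rw [hnuR i hiR]
        by_cases hii : i = i1
        · rw [hii]; exact Subgroup.mem_zpowers _
        · rw [huniq i hiR hii]; exact one_mem _
      · have : ∃ c, i = e2 c := by
          by_contra h
          push Not at h
          exact hiR ⟨hi, h⟩
        obtain ⟨c, rfl⟩ := this
        rw [hnue c]; exact one_mem _
    have h2 := h1 hT0
    have h3 : nu (of a0, 1) ∈ Subgroup.zpowers (s (g3 i1)) := h2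
    rw [hnu0] at h3
    obtain ⟨n, hn⟩ := Subgroup.mem_zpowers_iff.1 h3
    have h4 := congrArg Multiplicative.toAdd hn
    rw [toAdd_zpow, toAdd_ofAdd, smul_eq_mul, mul_comm] at h4
    have h5 := Int.isUnit_iff.1 (IsUnit.of_mul_eq_one n h4)
    rcases h5 with h5 | h5
    · left; rw [← h5]; rfl
    · right; rw [← h5]; rfl
  obtain ⟨i1, hi1, hs1, huniq⟩ := hex
  have hi1A : i1 ∈ A := hi1.1
  -- Step 5: correct the sign
  have hg4 : ∃ g4 : ι → FreeGroup α × FreeGroup γ, Rel A A g3 g4 ∧ g4 i1 = (of a0, 1) ∧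
      ∀ i, i ≠ i1 → g4 i = g3 i := by
    rcases hs1 with h | h
    · refine ⟨g3, Rel.refl _, ?_, fun i _ => rfl⟩
      apply Prod.ext
      · rw [hpow i1 hi1A, h]; simp
      · exact hg3R i1 hi1
    · refine ⟨update g3 i1 (g3 i1)⁻¹, rel_inv g3 hi1A, ?_, fun i hi => update_of_ne hi _ _⟩
      rw [update_self]
      apply Prod.ext
      · show ((g3 i1).1)⁻¹ = of a0
        rw [hpow i1 hi1A, h]; simp
      · show ((g3 i1).2)⁻¹ = 1
        rw [hg3R i1 hi1, inv_one]
  obtain ⟨g4, hg4r, hg4i, hg4o⟩ := hg4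
  -- Step 6: clear the first coordinates
  let S : Finset ι := Finset.univ.image e2
  have hi1S : i1 ∉ S := by
    intro h
    obtain ⟨c, -, hc⟩ := Finset.mem_image.1 h
    exact hi1.2 c hc.symm
  have hrel5 := rel_finset (A := A) (M := A) g4 (fun i => (1, (g4 i).2)) S (by
    intro i hi g' hg'off hg'i
    obtain ⟨c, -, rfl⟩ := Finset.mem_image.1 hi
    have hne : e2 c ≠ i1 := fun h => hi1S (h ▸ hi)
    have hmem : ((of a0, 1) : FreeGroup α × FreeGroup γ) ∈
        Subgroup.closure (g' '' (A \ {e2 c})) := by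
      rw [← hg4i, ← hg'off i1 hi1S]
      exact Subgroup.subset_closure ⟨i1, ⟨hi1A, fun h => hne (by simpa using h.symm)⟩, rfl⟩
    have h1 := rel_absorb (A := A) (M := A) (g := g') (he2A c)
      (zpow_mem hmem (-(Multiplicative.toAdd (s (g3 (e2 c))))))
    convert h1 using 2
    rw [hg'i, hg4o _ hne]
    apply Prod.ext
    · show (1 : FreeGroup α) = (g3 (e2 c)).1 *
        ((of a0, (1 : FreeGroup γ)) ^ (-(Multiplicative.toAdd (s (g3 (e2 c)))))).1
      rw [Prod.pow_fst, hpow _ (he2A c)]
      simp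
    · show (g3 (e2 c)).2 = (g3 (e2 c)).2 *
        ((of a0, (1 : FreeGroup γ)) ^ (-(Multiplicative.toAdd (s (g3 (e2 c)))))).2
      rw [Prod.pow_snd]
      simp)
  set g5 : ι → FreeGroup α × FreeGroup γ := fun i => if i ∈ S then (1, (g4 i).2) else g4 i
    with hg5
  have htot : Rel Set.univ Set.univ g g5 := by
    refine (hg1.mono (Set.subset_univ _) (Set.subset_univ _)).trans ?_
    refine (hg2.mono (Set.subset_univ _) (Set.subset_univ _)).trans ?_
    refine (hg3.mono (Set.subset_univ _) (Set.subset_univ _)).trans ?_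
    refine (hg4r.mono (Set.subset_univ _) (Set.subset_univ _)).trans ?_
    exact hrel5.mono (Set.subset_univ _) (Set.subset_univ _)
  refine ⟨g5, fun a => if ha : a = a0 then i1 else k a ha, e2, htot, ?_, ?_, ?_⟩
  · intro a
    by_cases ha : a = a0
    · simp only [ha, dif_pos]
      rw [hg5]
      simp only [if_neg hi1S]
      rw [hg4i]
    · simp only [dif_neg ha]
      have h1 : k a ha ∉ A := fun h => h a ha rfl
      have h2 : k a ha ∉ S := by
        intro h
        obtain ⟨c, -, hc⟩ := Finset.mem_image.1 h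
        exact h1 (hc ▸ he2A c)
      rw [hg5]
      simp only [if_neg h2]
      rw [hg4r.off h1, hg3.off (fun h => h1 h.1), hg2.off h1, hg1k]
  · intro c
    have h1 : e2 c ∈ S := Finset.mem_image.2 ⟨c, Finset.mem_univ _, rfl⟩
    have hne : e2 c ≠ i1 := fun h => hi1S (h ▸ h1)
    rw [hg5]
    simp only [if_pos h1]
    rw [hg4o _ hne, hg3e, hg2w', he2]
  · intro i h1 h2
    have hiA : i ∈ A := by
      intro a ha
      have := h1 a
      simp only [dif_neg ha] at this
      exact this
    have hii : i ≠ i1 := by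
      have := h1 a0
      simp only [dif_pos] at this
      exact this
    have hiS : i ∉ S := by
      intro h
      obtain ⟨c, -, hc⟩ := Finset.mem_image.1 h
      exact h2 c hc.symm
    have hiR : i ∈ R := ⟨hiA, h2⟩
    rw [hg5]
    simp only [if_neg hiS]
    rw [hg4o i hii]
    apply Prod.ext
    · rw [hpow i hiA, huniq i hiR hii]; simp
    · exact hg3R i hiR

end Pool.Agent.H81.Nls
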