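import Pool.Agent.H81.Nls.Normal

/-!
One statement for all forms of the theorem.
-/

namespace Pool.Agent.H81.Nls

open Function FreeGroup

/-- A sufficient condition (written for the first factor). Let `g` be a tuple of elements of
`F_p × F_q` with `p ≥ 1` and `D` a set of places. There are generators `u_1, ..., u_p` of `F_p`
such that one of the following holds.

(a) For some `c` in `F_q`, integers `m_a` and a set `I` of indices, for every `a` in `I` some entry
outside `D` is `(u_a, c ^ m_a)`; and `p ≤ |I| + |D|`, or `p ≤ |I| + |D| + 1` and all the `m_a` with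
`a` in `I` are `0`.

(b) The entries at places `k_1, ..., k_p` outside `D` are `(u_a, v_a)`, all other entries have
trivial first coordinate, and for some set `S` of indices the `v_a` with `a` in `S` and the second
coordinates of the other entries outside `D` generate `F_q`, where `|S| ≤ |D| + 1` or all the `v_a`
with `a` in `S` are powers of one element. -/
def Special {p q : ℕ} {ι : Type} (g : ι → FreeGroup (Fin p) × FreeGroup (Fin q))
    (D : Finset ι) : Prop :=
  0 < p ∧ ∃ u : Fin p → FreeGroup (Fin p), Subgroup.closure (Set.range u) = ⊤ ∧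
    ((∃ (I : Finset (Fin p)) (c : FreeGroup (Fin q)) (m : Fin p → ℤ),
        (∀ a ∈ I, ∃ i, i ∉ D ∧ g i = (u a, c ^ m a)) ∧
        (p ≤ I.card + D.card ∨ (p ≤ I.card + D.card + 1 ∧ ∀ a ∈ I, m a = 0))) ∨
     (∃ (k : Fin p → ι) (v : Fin p → FreeGroup (Fin q)) (S : Finset (Fin p)),
        (∀ a, k a ∉ D) ∧ (∀ a, g (k a) = (u a, v a)) ∧
        (∀ i, i ∉ Set.range k → (g i).1 = 1) ∧
        Subgroup.closure (v '' {a | a ∈ S} ∪
          (fun i => (g i).2) '' {i | i ∉ Set.range k ∧ i ∉ D}) = ⊤ ∧
        (S.card ≤ D.card + 1 ∨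
          ∃ c : FreeGroup (Fin q), ∀ a ∈ S, v a ∈ Subgroup.zpowers c)))

theorem special_left {p q : ℕ} {ι : Type} [Fintype ι] [DecidableEq ι]
    (g : ι → FreeGroup (Fin p) × FreeGroup (Fin q)) (D : Finset ι)
    (hD : Subgroup.closure (g '' {i | i ∉ D}) = ⊤) (h : Special g D)
    (E : Fin p ⊕ Fin q ↪ ι) : Nielsen (stdTuple E) g := by
  obtain ⟨hp, u, hu, ⟨I, c, m, hI, hcard⟩ | ⟨k, v, S, hkD, hk, hone, hS, hcard⟩⟩ := h
  · exact final_left p q hp g u hu I D c m hD hI hcard E
  · exact final_normal p q hp g u hu k v hk hone D hD hkD S hS hcard E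

theorem nielsen_of_swap {p q : ℕ} {ι : Type} [Fintype ι] [DecidableEq ι]
    (g : ι → FreeGroup (Fin p) × FreeGroup (Fin q))
    (hsw : ∀ E' : Fin q ⊕ Fin p ↪ ι, Nielsen (stdTuple E') (fun i => (g i).swap))
    (E : Fin p ⊕ Fin q ↪ ι) : Nielsen (stdTuple E) g := by
  let Sw : FreeGroup (Fin p) × FreeGroup (Fin q) ≃* FreeGroup (Fin q) × FreeGroup (Fin p) :=
    MulEquiv.prodComm
  have hSw : ∀ x, Sw x = (x.2, x.1) := fun x => rfl
  let E' : Fin q ⊕ Fin p ↪ ι := (Equiv.sumComm (Fin q) (Fin p)).toEmbedding.trans E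
  have h : Nielsen (stdTuple E') (fun i => Sw (g i)) := hsw E'
  have h2 := h.map Sw.symm.toMonoidHom
  have e1 : (fun i => Sw.symm.toMonoidHom (Sw (g i))) = g := by
    funext i
    exact Sw.symm_apply_apply (g i)
  have e2 : (fun i => Sw.symm.toMonoidHom (stdTuple E' i)) = stdTuple E := by
    funext i
    by_cases hi : ∃ x, E x = i
    · obtain ⟨x, rfl⟩ := hi
      have h3 : E x = E' (Sum.swap x) := by
        show E x = E (Sum.swap (Sum.swap x))
        rw [Sum.swap_swap]
      have h4 : stdTuple E' (E x) = Sum.elim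
          (fun i => ((FreeGroup.of i, 1) : FreeGroup (Fin q) × FreeGroup (Fin p)))
          (fun j => (1, FreeGroup.of j)) (Sum.swap x) := by
        rw [h3]
        unfold stdTuple
        rw [E'.injective.extend_apply]
      have h5 : stdTuple E (E x) = Sum.elim
          (fun i => ((FreeGroup.of i, 1) : FreeGroup (Fin p) × FreeGroup (Fin q)))
          (fun j => (1, FreeGroup.of j)) x := by
        unfold stdTuple
        rw [E.injective.extend_apply]
      rw [h4, h5]
      rcases x with a | b
      · rfl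
      · rfl
    · have h4 : stdTuple E i = 1 := by
        unfold stdTuple
        rw [Function.extend_apply' _ _ _ hi]
        rfl
      have h5 : stdTuple E' i = 1 := by
        unfold stdTuple
        rw [Function.extend_apply']
        · rfl
        · rintro ⟨x, hx⟩
          exact hi ⟨Sum.swap x, hx⟩
      rw [h4, h5]
      rfl
  rw [e1, e2] at h2
  exact h2

theorem special_all {p q : ℕ} {ι : Type} [Fintype ι] [DecidableEq ι]
    (g : ι → FreeGroup (Fin p) × FreeGroup (Fin q)) (D : Finset ι)
    (hD : Subgroup.closure (g '' {i | i ∉ D}) = ⊤)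
    (h : Special g D ∨ Special (fun i => (g i).swap) D)
    (E : Fin p ⊕ Fin q ↪ ι) : Nielsen (stdTuple E) g := by
  rcases h with h | h
  · exact special_left g D hD h E
  · refine nielsen_of_swap g (fun E' => ?_) E
    refine special_left (fun i => (g i).swap) D ?_ h E'
    let Sw : FreeGroup (Fin p) × FreeGroup (Fin q) ≃* FreeGroup (Fin q) × FreeGroup (Fin p) :=
      MulEquiv.prodComm
    have : (fun i => (g i).swap) '' {i | i ∉ D} = Sw.toMonoidHom '' (g '' {i | i ∉ D}) := by
      rw [Set.image_image]; rfl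
    rw [this, ← MonoidHom.map_closure, hD]
    exact Subgroup.map_top_of_surjective _ Sw.surjective

end Pool.Agent.H81.Nls
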